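import Mathlib

/-!
# Powers of ideals generated by elements with `x ^ p = 0`
-/

set_option autoImplicit false

namespace Pool.Agent.P8H33.ZB

variable {A : Type} [CommRing A]

theorem sup_pow_sharp (I J : Ideal A) (n m : ℕ) :
    (I ⊔ J) ^ (n + m) ≤ I ^ (n + 1) ⊔ J ^ m := by
  rw [← Ideal.add_eq_sup, ← Ideal.add_eq_sup, add_pow, Ideal.sum_eq_sup]
  apply Finset.sup_le
  intro i hi
  by_cases hn : n + 1 ≤ i
  · exact (Ideal.mul_le_left.trans (Ideal.mul_le_left.trans
      ((Ideal.pow_le_pow_right hn).trans le_sup_left)))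
  · refine (Ideal.mul_le_left.trans (Ideal.mul_le_right.trans
      ((Ideal.pow_le_pow_right ?_).trans le_sup_right)))
    omega

/-- An ideal generated by `t` elements `x` with `x ^ (q + 1) = 0` has power `t q + 1` zero. -/
theorem span_pow_eq_bot {q : ℕ} {T : Type} (x : T → A) (hx : ∀ c, x c ^ (q + 1) = 0)
    (S : Finset T) : (Ideal.span (x '' (S : Set T))) ^ (S.card * q + 1) = ⊥ := by
  classical
  induction S using Finset.induction_on with
  | empty =>
    rw [Finset.coe_empty, Set.image_empty, Ideal.span_empty, Finset.card_empty, zero_mul, zero_add,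
      pow_one]
  | insert c S hc ih =>
    rw [Finset.card_insert_of_notMem hc, Finset.coe_insert, Set.image_insert_eq,
      Ideal.span_insert, eq_bot_iff]
    have h1 := sup_pow_sharp (Ideal.span {x c}) (Ideal.span (x '' (S : Set T))) q (S.card * q + 1)
    rw [ih, sup_bot_eq, Ideal.span_singleton_pow, hx c] at h1
    have h2 : (S.card + 1) * q + 1 = q + (S.card * q + 1) := by ring
    rw [h2]
    refine h1.trans (le_of_eq ?_)
    rw [Ideal.span_singleton_eq_bot]

theorem sup_pow_le_sup (I J : Ideal A) (n : ℕ) : (I ⊔ J) ^ n ≤ I ⊔ J ^ n := by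
  have h := sup_pow_sharp I J 0 n
  rwa [zero_add, zero_add, pow_one] at h

/-- If an ideal is contained in the sum of `I` and an ideal generated by `t` elements with
`x ^ (q + 1) = 0` then its power `t q + 1` is contained in `I`. -/
theorem pow_le_of_le_sup {q : ℕ} {T : Type} (x : T → A) (hx : ∀ c, x c ^ (q + 1) = 0)
    (S : Finset T) (I J : Ideal A) (h : J ≤ I ⊔ Ideal.span (x '' (S : Set T))) :
    J ^ (S.card * q + 1) ≤ I := by
  refine (Ideal.pow_right_mono h _).trans ((sup_pow_le_sup _ _ _).trans ?_)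
  rw [span_pow_eq_bot x hx S, sup_bot_eq]

end Pool.Agent.P8H33.ZB
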