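import Pool.Agent.P8H83.ZL.LAY

/-!
# Chains with trivial layers
-/

set_option autoImplicit false

namespace Pool.Agent.P8H33.ZB

open Module Pool.Agent.P8H83.ZL Pool.Agent.P8H83.ZL.LAYaux

section

variable {K G V : Type} [Field K] [Group G] [AddCommGroup V] [Module K V]

theorem chain_trans {ρ : G →* (V →ₗ[K] V)} {D : Subgroup G} {B U Z : Submodule K V} {m n : ℕ}
    (h1 : Chain ρ D B U m) (h2 : Chain ρ D U Z n) : Chain ρ D B Z (m + n) := by
  induction m generalizing B with
  | zero =>
    obtain ⟨S, h0, hn, -, -⟩ := h1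
    have h : B = U := by rw [← h0, hn]
    rw [h, zero_add]
    exact h2
  | succ m ih =>
    obtain ⟨S, h0, hn, hm, ht⟩ := h1
    have h3 : Chain ρ D (S 1) U m :=
      ⟨fun i => S (i + 1), rfl, hn, fun i => hm (i + 1), fun i => ht (i + 1)⟩
    have h4 := ih h3
    have h5 : B ≤ S 1 := by rw [← h0]; exact hm 0
    have h6 : ∀ v ∈ S 1, ∀ g ∈ D, ρ g v - v ∈ B := by rw [← h0]; exact ht 0
    have h7 := Chain.cons h5 h6 h4
    have h8 : m + 1 + n = m + n + 1 := by omega
    rw [h8]
    exact h7

/-- the chain with one-dimensional steps -/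
theorem chain_dim [FiniteDimensional K V] {p : ℕ} (hp : p.Prime) [CharP K p]
    (ρ : G →* (V →ₗ[K] V)) (D : Subgroup G) [D.Normal] [Finite D] (hD : IsPGroup p D)
    {Z : Submodule K V} (hZ : Stab ρ Z) : ∀ b : ℕ, ∀ B : Submodule K V, B ≤ Z → Stab ρ B →
      finrank K Z - finrank K B = b → Chain ρ D B Z b := by
  intro b
  induction b using Nat.strong_induction_on with
  | _ b ih =>
    intro B hBZ hB hb
    have hBZf : finrank K B ≤ finrank K Z := Submodule.finrank_mono hBZ
    by_cases hne : B = Z
    · rw [hne]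
      exact (Chain.refl ρ D hZ).pad hZ (Nat.zero_le _)
    · have hlt := next_ne hp ρ D hD hB hZ hBZ hne
      set U' := next ρ D B Z with hU'
      have hU'Z : U' ≤ Z := fun v hv => hv.1
      have hU's : Stab ρ U' := next_stab ρ D hB hZ
      have hltf : finrank K B < finrank K U' := Submodule.finrank_lt_finrank_of_lt hlt
      have hU'Zf : finrank K U' ≤ finrank K Z := Submodule.finrank_mono hU'Z
      have hrec := ih (finrank K Z - finrank K U') (by omega) U' hU'Z hU's rfl
      exact (hrec.cons hlt.le (fun v hv g hg => hv.2 g hg)).pad hZ (by omega)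

/-- chains from chains for small dimensions -/
theorem chain_gen [FiniteDimensional K V] {p : ℕ} (hp : p.Prime) [CharP K p]
    (ρ : G →* (V →ₗ[K] V)) (D : Subgroup G) [D.Normal] [Finite D] (hD : IsPGroup p D)
    {k l : ℕ} (hk : 0 < k)
    (hst : ∀ B U : Submodule K V, B ≤ U → Stab ρ B → Stab ρ U →
      finrank K U - finrank K B < k → Chain ρ D B U l)
    {Z : Submodule K V} (hZ : Stab ρ Z) : ∀ b : ℕ, ∀ B : Submodule K V, B ≤ Z → Stab ρ B →
      finrank K Z - finrank K B = b → Chain ρ D B Z (l + (l + 1) * (b / k)) := by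
  intro b
  induction b using Nat.strong_induction_on with
  | _ b ih =>
    intro B hBZ hB hb
    have hBZf : finrank K B ≤ finrank K Z := Submodule.finrank_mono hBZ
    have hwf := WellFounded.has_min (measure fun U : Submodule K V => finrank K Z - finrank K U).wf
      {U : Submodule K V | B ≤ U ∧ U ≤ Z ∧ Stab ρ U ∧ finrank K U - finrank K B < k}
      ⟨B, le_rfl, hBZ, hB, by omega⟩
    obtain ⟨U, ⟨hBU, hUZ, hU, hUk⟩, hmax⟩ := hwf
    have hBUf : finrank K B ≤ finrank K U := Submodule.finrank_mono hBU
    have hUZf : finrank K U ≤ finrank K Z := Submodule.finrank_mono hUZ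
    have hstep := hst B U hBU hB hU hUk
    by_cases hne : U = Z
    · rw [hne] at hstep
      exact hstep.pad hZ (by omega)
    · have hlt := next_ne hp ρ D hD hU hZ hUZ hne
      set U' := next ρ D U Z with hU'
      have hU'Z : U' ≤ Z := fun v hv => hv.1
      have hU's : Stab ρ U' := next_stab ρ D hU hZ
      have hltf : finrank K U < finrank K U' := Submodule.finrank_lt_finrank_of_lt hlt
      have hU'Zf : finrank K U' ≤ finrank K Z := Submodule.finrank_mono hU'Z
      have hge : k ≤ finrank K U' - finrank K B := by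
        by_contra hcon
        apply hmax U' ⟨hBU.trans hlt.le, hU'Z, hU's, by omega⟩
        show finrank K Z - finrank K U' < finrank K Z - finrank K U
        omega
      have hrec := ih (finrank K Z - finrank K U') (by omega) U' hU'Z hU's rfl
      have hch := chain_trans hstep (hrec.cons hlt.le (fun v hv g hg => hv.2 g hg))
      refine hch.pad hZ ?_
      have h1 : (finrank K Z - finrank K U') / k ≤ (b - k) / k := Nat.div_le_div_right (by omega)
      have h2 := Nat.div_eq_sub_div hk (by omega : k ≤ b)
      have h3 : (l + 1) * ((finrank K Z - finrank K U') / k) ≤ (l + 1) * ((b - k) / k) :=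
        Nat.mul_le_mul_left _ h1
      rw [h2, Nat.mul_add]
      omega

end

end Pool.Agent.P8H33.ZB
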