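import Pool.Agent.P8H33.ZB.Alg
import Pool.Agent.P8H83.ZL.LAY

/-!
# Layers for abelian groups generated by few elements and trivially acting elements
-/

set_option autoImplicit false

namespace Pool.Agent.P8H33.ZB

open Module Pool.Agent.P8H83.ZL Pool.Agent.P8H83.ZL.LAYaux

section

variable {K C V : Type} [Field K] [CommGroup C] [AddCommGroup V] [Module K V]

/-- The group algebra acts. -/
noncomputable def alg (σ : C →* (V →ₗ[K] V)) : MonoidAlgebra K C →ₐ[K] (V →ₗ[K] V) :=
  MonoidAlgebra.lift K (V →ₗ[K] V) C σ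

theorem alg_of (σ : C →* (V →ₗ[K] V)) (g : C) : alg σ (MonoidAlgebra.of K C g) = σ g := by
  unfold alg
  rw [MonoidAlgebra.lift_of]

theorem alg_mul (σ : C →* (V →ₗ[K] V)) (a b : MonoidAlgebra K C) (v : V) :
    alg σ (a * b) v = alg σ a (alg σ b v) := by
  rw [map_mul]; rfl

theorem alg_mem (σ : C →* (V →ₗ[K] V)) {B : Submodule K V} (hB : ∀ g, ∀ v ∈ B, σ g v ∈ B)
    (a : MonoidAlgebra K C) : ∀ v ∈ B, alg σ a v ∈ B := by
  induction a using MonoidAlgebra.induction_on with
  | of g =>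
    intro v hv
    rw [alg_of]
    exact hB g v hv
  | add a b ha hb =>
    intro v hv
    rw [map_add, LinearMap.add_apply]
    exact B.add_mem (ha v hv) (hb v hv)
  | smul r a ha =>
    intro v hv
    rw [map_smul, LinearMap.smul_apply]
    exact B.smul_mem r (ha v hv)

/-- The elements of the group algebra which map `Z` to `B`. -/
def bd (σ : C →* (V →ₗ[K] V)) (B Z : Submodule K V) (hB : ∀ g, ∀ v ∈ B, σ g v ∈ B) :
    Ideal (MonoidAlgebra K C) where
  carrier := {a | ∀ z ∈ Z, alg σ a z ∈ B}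
  add_mem' := by
    intro a b ha hb z hz
    rw [map_add, LinearMap.add_apply]
    exact B.add_mem (ha z hz) (hb z hz)
  zero_mem' := by
    intro z _
    rw [map_zero]
    exact B.zero_mem
  smul_mem' := by
    intro a b hb z hz
    rw [smul_eq_mul, alg_mul]
    exact alg_mem σ hB a _ (hb z hz)

/-- The elements `y` with `y - 1` in an ideal. -/
def sg (I : Ideal (MonoidAlgebra K C)) : Subgroup C where
  carrier := {y | MonoidAlgebra.of K C y - 1 ∈ I}
  mul_mem' := by
    intro a b ha hb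
    show MonoidAlgebra.of K C (a * b) - 1 ∈ I
    have h : MonoidAlgebra.of K C (a * b) - 1 =
        MonoidAlgebra.of K C b * (MonoidAlgebra.of K C a - 1) + (MonoidAlgebra.of K C b - 1) := by
      rw [map_mul]; ring
    rw [h]
    exact I.add_mem (I.mul_mem_left _ ha) hb
  one_mem' := by
    show MonoidAlgebra.of K C 1 - 1 ∈ I
    rw [map_one, sub_self]
    exact I.zero_mem
  inv_mem' := by
    intro a ha
    show MonoidAlgebra.of K C a⁻¹ - 1 ∈ I
    have h : MonoidAlgebra.of K C a⁻¹ - 1 =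
        - MonoidAlgebra.of K C a⁻¹ * (MonoidAlgebra.of K C a - 1) := by
      have h1 : MonoidAlgebra.of K C a⁻¹ * MonoidAlgebra.of K C a = 1 := by
        rw [← map_mul, inv_mul_cancel, map_one]
      linear_combination h1
    rw [h]
    exact I.mul_mem_left _ ha

/-- **Few layers.**  `C` commutative, generated by elements which map `Z` trivially modulo `B` and
`t` elements of order `p`: there is a chain of length `t (p - 1) + 1`. -/
theorem chain_few {p : ℕ} (hp : p.Prime) [CharP K p] (σ : C →* (V →ₗ[K] V)) {B Z : Submodule K V}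
    (hBZ : B ≤ Z) (hB : ∀ g, ∀ v ∈ B, σ g v ∈ B) (hZ : ∀ g, ∀ v ∈ Z, σ g v ∈ Z)
    {T : Type} (S : Finset T) (x : T → C) (hx : ∀ t, x t ^ p = 1)
    (hgen : ∀ H : Subgroup C, (∀ y, (∀ v ∈ Z, σ y v - v ∈ B) → y ∈ H) → (∀ t ∈ S, x t ∈ H) →
      ∀ y, y ∈ H) :
    ∃ U : ℕ → Submodule K V, U 0 = B ∧ U (S.card * (p - 1) + 1) = Z ∧
      (∀ i, U i ≤ U (i + 1)) ∧ (∀ i, ∀ v ∈ U (i + 1), ∀ g : C, σ g v - v ∈ U i) := by
  have : Fact p.Prime := ⟨hp⟩
  have hc : CharP (MonoidAlgebra K C) p :=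
    charP_of_injective_algebraMap (algebraMap K (MonoidAlgebra K C)).injective p
  set J : Ideal (MonoidAlgebra K C) :=
    Ideal.span (Set.range fun y : C => MonoidAlgebra.of K C y - 1) with hJ
  have hJm : ∀ y : C, MonoidAlgebra.of K C y - 1 ∈ J := fun y => Ideal.subset_span ⟨y, rfl⟩
  have hx' : ∀ t, (MonoidAlgebra.of K C (x t) - 1) ^ (p - 1 + 1) = 0 := by
    intro t
    rw [Nat.sub_add_cancel hp.one_le, sub_pow_char, one_pow, ← map_pow, hx, map_one, sub_self]
  have hJle : J ≤ bd σ B Z hB ⊔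
      Ideal.span ((fun t => MonoidAlgebra.of K C (x t) - 1) '' (S : Set T)) := by
    rw [hJ, Ideal.span_le]
    rintro _ ⟨y, rfl⟩
    refine hgen (sg (bd σ B Z hB ⊔
      Ideal.span ((fun t => MonoidAlgebra.of K C (x t) - 1) '' (S : Set T)))) ?_ ?_ y
    · intro y hy
      apply Ideal.mem_sup_left
      intro z hz
      rw [map_sub, map_one, alg_of, LinearMap.sub_apply]
      exact hy z hz
    · intro t ht
      apply Ideal.mem_sup_right
      exact Ideal.subset_span ⟨t, ht, rfl⟩
  have hpow := pow_le_of_le_sup _ hx' S (bd σ B Z hB) J hJle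
  let U : ℕ → Submodule K V := fun i =>
    { carrier := {z | z ∈ Z ∧ ∀ a ∈ J ^ i, alg σ a z ∈ B}
      add_mem' := by
        rintro u v ⟨hu, hu'⟩ ⟨hv, hv'⟩
        refine ⟨Z.add_mem hu hv, fun a ha => ?_⟩
        rw [map_add]
        exact B.add_mem (hu' a ha) (hv' a ha)
      zero_mem' := ⟨Z.zero_mem, fun a _ => by rw [map_zero]; exact B.zero_mem⟩
      smul_mem' := by
        rintro r u ⟨hu, hu'⟩
        refine ⟨Z.smul_mem r hu, fun a ha => ?_⟩
        rw [map_smul]
        exact B.smul_mem r (hu' a ha) }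
  refine ⟨U, ?_, ?_, ?_, ?_⟩
  · ext z
    constructor
    · rintro ⟨-, h⟩
      have h1 := h 1 (by rw [pow_zero, Ideal.one_eq_top]; exact Submodule.mem_top)
      rw [map_one] at h1
      exact h1
    · intro hz
      exact ⟨hBZ hz, fun a _ => alg_mem σ hB a z hz⟩
  · ext z
    constructor
    · rintro ⟨h, -⟩
      exact h
    · intro hz
      exact ⟨hz, fun a ha => hpow ha z hz⟩
  · rintro i z ⟨hz, h⟩
    exact ⟨hz, fun a ha => h a (Ideal.pow_le_pow_right (Nat.le_succ i) ha)⟩
  · rintro i z ⟨hz, h⟩ g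
    refine ⟨Z.sub_mem (hZ g z hz) hz, fun a ha => ?_⟩
    have h1 : alg σ a (σ g z - z) = alg σ (a * (MonoidAlgebra.of K C g - 1)) z := by
      rw [alg_mul, map_sub (alg σ), map_one, alg_of]
      rfl
    rw [h1]
    apply h
    rw [pow_succ]
    exact Ideal.mul_mem_mul ha (hJm g)

end

end Pool.Agent.P8H33.ZB
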