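import Pool.Agent.P8H33.ZB.Def
import Pool.Agent.P8H33.ZB.Lay
import Pool.Agent.P8H33.ZB.Chn
import Pool.Agent.P8H83.ZL.Wg
import Pool.Agent.P8H83.ZL.REP

/-!
# Groups of vectors and permutations which preserve blocks of coordinates
-/

set_option autoImplicit false

namespace Pool.Agent.P8H33.ZB

open Equiv Module Pool.Agent.P8H83.ZL

namespace FG

variable {n p : ℕ}

theorem mul_v (g h : FG n p) (i : Fin n) : (g * h).v i = g.v i + h.v (g.σ⁻¹ i) := rfl
theorem mul_σ (g h : FG n p) : (g * h).σ = g.σ * h.σ := rfl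
theorem one_v : (1 : FG n p).v = 0 := rfl
theorem one_σ : (1 : FG n p).σ = 1 := rfl
theorem inv_v (g : FG n p) (i : Fin n) : (g⁻¹).v i = - g.v (g.σ i) := rfl
theorem inv_σ (g : FG n p) : (g⁻¹).σ = g.σ⁻¹ := rfl

end FG

variable {n p : ℕ} {I : Type}

variable {β : Fin n → I} {A : Submodule (ZMod p) (Fin n → ZMod p)}

theorem mem_BG_of_one {g : FG n p} (h : g.σ = 1) (hv : g.v ∈ A) : g ∈ BG β A :=
  Subgroup.subset_closure (Or.inl ⟨h, hv⟩)

theorem BG_block {g : FG n p} (hg : g ∈ BG β A) (i : Fin n) : β (g.σ i) = β i := by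
  let Q : Subgroup (FG n p) :=
    { carrier := {g | ∀ i, β (g.σ i) = β i}
      mul_mem' := by
        intro g h hg hh i
        rw [FG.mul_σ, Perm.mul_apply, hg, hh]
      one_mem' := fun i => rfl
      inv_mem' := by
        intro g hg i
        rw [FG.inv_σ]
        have h := hg (g.σ⁻¹ i)
        have h' : g.σ (g.σ⁻¹ i) = i := by simp
        rw [h'] at h
        exact h.symm }
  have h : BG β A ≤ Q := by
    unfold BG
    rw [Subgroup.closure_le]
    rintro g (⟨h, -⟩ | ⟨-, -, h⟩)
    · intro i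
      rw [h]; rfl
    · exact h
  exact h hg i

theorem BG_sign {g : FG n p} (hg : g ∈ BG β A) : Perm.sign g.σ = 1 := by
  let Q : Subgroup (FG n p) :=
    { carrier := {g | Perm.sign g.σ = 1}
      mul_mem' := by
        intro g h hg hh
        show Perm.sign (g.σ * h.σ) = 1
        rw [Perm.sign_mul, show Perm.sign g.σ = 1 from hg, show Perm.sign h.σ = 1 from hh, mul_one]
      one_mem' := Perm.sign_one
      inv_mem' := by
        intro g hg
        show Perm.sign g.σ⁻¹ = 1
        rw [Perm.sign_inv, show Perm.sign g.σ = 1 from hg] }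
  have h : BG β A ≤ Q := by
    unfold BG
    rw [Subgroup.closure_le]
    rintro g (⟨h, -⟩ | ⟨-, h, -⟩)
    · show Perm.sign g.σ = 1
      rw [h, Perm.sign_one]
    · exact h.sign
  exact h hg

theorem BG_sum (hs : ∀ v ∈ A, ∑ i, v i = 0) {g : FG n p} (hg : g ∈ BG β A) :
    ∑ i, g.v i = 0 := by
  let Q : Subgroup (FG n p) :=
    { carrier := {g | ∑ i, g.v i = 0}
      mul_mem' := by
        intro g h hg hh
        show ∑ i, (g.v i + h.v (g.σ⁻¹ i)) = 0
        rw [Finset.sum_add_distrib, Equiv.sum_comp g.σ⁻¹ h.v, show ∑ i, g.v i = 0 from hg,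
          show ∑ i, h.v i = 0 from hh, add_zero]
      one_mem' := by
        show ∑ i : Fin n, (0 : Fin n → ZMod p) i = 0
        simp
      inv_mem' := by
        intro g hg
        show ∑ i, - g.v (g.σ i) = 0
        rw [Finset.sum_neg_distrib, Equiv.sum_comp g.σ g.v, show ∑ i, g.v i = 0 from hg,
          neg_zero] }
  have h : BG β A ≤ Q := by
    unfold BG
    rw [Subgroup.closure_le]
    rintro g (⟨-, h⟩ | ⟨h, -, -⟩)
    · exact hs _ h
    · show ∑ i, g.v i = 0
      rw [h]
      simp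
  exact h hg

/-- `A` is stable under the permutations which preserve the blocks. -/
theorem Adm.perm (hA : Adm β A) (σ : Perm (Fin n)) (hσ : ∀ i, β (σ i) = β i)
    {v : Fin n → ZMod p} (hv : v ∈ A) : (fun i => v (σ⁻¹ i)) ∈ A := by
  have h : (fun i => v (σ⁻¹ i)) = v +
      ∑ i, v i • (Pi.single (σ i) 1 - Pi.single i 1 : Fin n → ZMod p) := by
    funext l
    rw [Pi.add_apply, Finset.sum_apply]
    show v (σ⁻¹ l) = v l + ∑ i, v i * ((Pi.single (σ i) 1 : Fin n → ZMod p) l -
      (Pi.single i 1 : Fin n → ZMod p) l)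
    simp only [mul_sub, Finset.sum_sub_distrib]
    have h1 : ∑ i, v i * (Pi.single (σ i) 1 : Fin n → ZMod p) l = v (σ⁻¹ l) := by
      rw [Finset.sum_eq_single (σ⁻¹ l)]
      · have h' : σ (σ⁻¹ l) = l := by simp
        rw [h', Pi.single_eq_same, mul_one]
      · intro b _ hb
        rw [Pi.single_eq_of_ne, mul_zero]
        intro h
        exact hb (by rw [h]; simp)
      · intro h
        exact absurd (Finset.mem_univ _) h
    have h2 : ∑ i, v i * (Pi.single i 1 : Fin n → ZMod p) l = v l := by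
      simp [Pi.single_apply]
    rw [h1, h2]
    ring
  rw [h]
  exact A.add_mem hv (A.sum_mem fun i _ => A.smul_mem _ (hA _ _ (hσ i)))

/-- The homomorphism given by an embedding of the coordinates. -/
noncomputable def emb0 {N : ℕ} (ι : Fin N ↪ Fin n) : WG N p →* FG n p where
  toFun g := ⟨Mono.ext0 ι g.v, g.σ.viaFintypeEmbedding ι⟩
  map_one' := by
    apply FG.ext'
    · show Mono.ext0 ι (1 : WG N p).v = 0
      rw [WG.one_v]
      funext x
      by_cases hx : x ∈ Set.range ι
      · obtain ⟨i, rfl⟩ := hx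
        rw [Mono.ext0_apply]; rfl
      · rw [Mono.ext0_out _ _ _ hx]; rfl
    · show (1 : WG N p).σ.viaFintypeEmbedding ι = 1
      rw [WG.one_σ, Mono.via_one]
  map_mul' g h := by
    apply FG.ext'
    · funext x
      show Mono.ext0 ι (g * h).v x =
        Mono.ext0 ι g.v x + Mono.ext0 ι h.v ((g.σ.viaFintypeEmbedding ι)⁻¹ x)
      rw [Mono.ext0_via, ← Mono.ext0_add]
      rfl
    · exact Mono.via_mul ι g.σ h.σ

/-- Even permutations. -/
def altHom (N p : ℕ) : alternatingGroup (Fin N) →* WG N p where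
  toFun τ := ⟨0, τ.1, by simp, Perm.mem_alternatingGroup.1 τ.2⟩
  map_one' := rfl
  map_mul' σ τ := by
    apply WG.ext'
    · funext i
      show (0 : ZMod p) = 0 + 0
      rw [add_zero]
    · rfl

theorem ext0_mem {N : ℕ} (hA : Adm β A) (ι : Fin N ↪ Fin n) (hι : ∀ a b, β (ι a) = β (ι b))
    (v : Fin N → ZMod p) (hv : ∑ i, v i = 0) : Mono.ext0 ι v ∈ A := by
  rcases Nat.eq_zero_or_pos N with h0 | h0
  · subst h0
    have h : Mono.ext0 ι v = 0 := by
      funext x
      exact Mono.ext0_out _ _ _ (fun ⟨i, _⟩ => i.elim0)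
    rw [h]
    exact A.zero_mem
  · let a0 : Fin N := ⟨0, h0⟩
    have h : Mono.ext0 ι v =
        ∑ a, v a • (Pi.single (ι a) 1 - Pi.single (ι a0) 1 : Fin n → ZMod p) := by
      funext l
      rw [Finset.sum_apply]
      show Mono.ext0 ι v l = ∑ a, v a * ((Pi.single (ι a) 1 : Fin n → ZMod p) l -
        (Pi.single (ι a0) 1 : Fin n → ZMod p) l)
      simp only [mul_sub, Finset.sum_sub_distrib]
      rw [← Finset.sum_mul, hv, zero_mul, sub_zero]
      by_cases hl : l ∈ Set.range ι
      · obtain ⟨i, rfl⟩ := hl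
        rw [Mono.ext0_apply]
        simp [Pi.single_apply, ι.injective.eq_iff]
      · rw [Mono.ext0_out _ _ _ hl]
        symm
        apply Finset.sum_eq_zero
        intro a _
        rw [Pi.single_eq_of_ne (fun h => hl ⟨a, h.symm⟩), mul_zero]
    rw [h]
    exact A.sum_mem fun a _ => A.smul_mem _ (hA _ _ (hι a a0))

theorem emb0_mem (hA : Adm β A) {N : ℕ} (ι : Fin N ↪ Fin n) (hι : ∀ a b, β (ι a) = β (ι b))
    (g : WG N p) : emb0 ι g ∈ BG β A := by
  have h1 : g = Mono.dg g.v g.hv * altHom N p ⟨g.σ, Perm.mem_alternatingGroup.2 g.hσ⟩ := by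
    apply WG.ext'
    · funext i
      show g.v i = g.v i + 0
      rw [add_zero]
    · show g.σ = 1 * g.σ
      rw [one_mul]
  rw [h1, map_mul]
  refine (BG β A).mul_mem (mem_BG_of_one ?_ ?_) ?_
  · show (1 : Perm (Fin N)).viaFintypeEmbedding ι = 1
    exact Mono.via_one ι
  · exact ext0_mem hA ι hι g.v g.hv
  · let Q : Subgroup (alternatingGroup (Fin N)) := (BG β A).comap ((emb0 ι).comp (altHom N p))
    have hQ : alternatingGroup (Fin N) ≤ Q.map (alternatingGroup (Fin N)).subtype := by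
      refine (le_of_eq Perm.closure_three_cycles_eq_alternating.symm).trans ?_
      rw [Subgroup.closure_le]
      intro τ hτ
      refine ⟨⟨τ, Perm.mem_alternatingGroup.2 hτ.sign⟩, ?_, rfl⟩
      show emb0 ι (altHom N p ⟨τ, _⟩) ∈ BG β A
      apply Subgroup.subset_closure
      right
      refine ⟨?_, ?_, ?_⟩
      · show Mono.ext0 ι (0 : Fin N → ZMod p) = 0
        funext x
        by_cases hx : x ∈ Set.range ι
        · obtain ⟨i, rfl⟩ := hx
          rw [Mono.ext0_apply]; rfl
        · rw [Mono.ext0_out _ _ _ hx]; rfl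
      · show (τ.viaFintypeEmbedding ι).cycleType = {3}
        unfold Perm.viaFintypeEmbedding
        rw [Perm.cycleType_extendDomain]
        exact hτ
      · intro x
        show β (τ.viaFintypeEmbedding ι x) = β x
        by_cases hx : x ∈ Set.range ι
        · obtain ⟨i, rfl⟩ := hx
          rw [Perm.viaFintypeEmbedding_apply_image]
          exact hι _ _
        · rw [Perm.viaFintypeEmbedding_apply_notMem_range _ _ hx]
    obtain ⟨τ, hτ, hτ'⟩ := hQ (Perm.mem_alternatingGroup.2 g.hσ)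
    have h2 : τ = ⟨g.σ, Perm.mem_alternatingGroup.2 g.hσ⟩ := Subtype.ext hτ'
    rw [← h2]
    exact hτ

/-- The homomorphism to the block group. -/
noncomputable def embB (hA : Adm β A) {N : ℕ} (ι : Fin N ↪ Fin n)
    (hι : ∀ a b, β (ι a) = β (ι b)) : WG N p →* BG β A :=
  (emb0 ι).codRestrict (BG β A) (emb0_mem hA ι hι)

/-- The vectors in `A` as a commutative group. -/
abbrev CV (A : Submodule (ZMod p) (Fin n → ZMod p)) : Type := Multiplicative A

/-- The vectors in the block group. -/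
def cB (β : Fin n → I) (A : Submodule (ZMod p) (Fin n → ZMod p)) : CV A →* BG β A where
  toFun y := ⟨⟨(Multiplicative.toAdd y).1, 1⟩,
    mem_BG_of_one rfl (Multiplicative.toAdd y).2⟩
  map_one' := by
    apply Subtype.ext
    exact FG.ext' rfl rfl
  map_mul' x y := by
    apply Subtype.ext
    apply FG.ext'
    · funext i
      show (Multiplicative.toAdd x).1 i + (Multiplicative.toAdd y).1 i =
        (Multiplicative.toAdd x).1 i + (Multiplicative.toAdd y).1 ((1 : Perm (Fin n))⁻¹ i)
      rw [inv_one]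
      rfl
    · exact (mul_one (1 : Perm (Fin n))).symm

/-- The difference of two unit vectors of one block in the commutative group. -/
def cd (hA : Adm β A) (i j : Fin n) (hij : β i = β j) : CV A :=
  Multiplicative.ofAdd ⟨Pi.single i 1 - Pi.single j 1, hA i j hij⟩

theorem ext0_df {N : ℕ} (ι : Fin N ↪ Fin n) (a b : Fin N) :
    Mono.ext0 ι (Pi.single a 1 - Pi.single b 1 : Fin N → ZMod p) =
      (Pi.single (ι a) 1 - Pi.single (ι b) 1 : Fin n → ZMod p) := by
  funext x
  by_cases hx : x ∈ Set.range ι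
  · obtain ⟨i, rfl⟩ := hx
    rw [Mono.ext0_apply]
    show (Pi.single a 1 : Fin N → ZMod p) i - (Pi.single b 1 : Fin N → ZMod p) i =
      (Pi.single (ι a) 1 : Fin n → ZMod p) (ι i) - (Pi.single (ι b) 1 : Fin n → ZMod p) (ι i)
    simp only [Pi.single_apply, ι.injective.eq_iff]
  · rw [Mono.ext0_out _ _ _ hx]
    show 0 = (Pi.single (ι a) 1 : Fin n → ZMod p) x - (Pi.single (ι b) 1 : Fin n → ZMod p) x
    have h1 : x ≠ ι a := fun h => hx ⟨a, h.symm⟩
    have h2 : x ≠ ι b := fun h => hx ⟨b, h.symm⟩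
    rw [Pi.single_eq_of_ne h1, Pi.single_eq_of_ne h2, sub_zero]

theorem embB_df (hA : Adm β A) {N : ℕ} (ι : Fin N ↪ Fin n) (hι : ∀ a b, β (ι a) = β (ι b))
    (a b : Fin N) : embB hA ι hι (Mono.dg (REP.df (p := p) a b).1 (REP.s0 _)) =
      cB β A (cd hA (ι a) (ι b) (hι a b)) := by
  apply Subtype.ext
  show emb0 ι (Mono.dg (REP.df (p := p) a b).1 (REP.s0 _)) = _
  apply FG.ext'
  · exact ext0_df ι a b
  · exact Mono.via_one ι

/-- Small representations are trivial on the differences of unit vectors in a large block. -/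
theorem small_block {K : Type} [Field K] (hR : ∀ N, SmallTriv K (WG N p) (WG.D N p) ((N - 2) / 2))
    (hA : Adm β A) {k : ℕ} {V : Type} [AddCommGroup V] [Module K V] [FiniteDimensional K V]
    (ρ : BG β A →* (V →ₗ[K] V)) (hV : finrank K V < k) (i j : Fin n) (hij : β i = β j)
    (hk : 2 * k + 2 ≤ Nat.card {l // β l = β i}) (v : V) : ρ (cB β A (cd hA i j hij)) v = v := by
  classical
  have hc : Fintype.card {l // β l = β i} = Nat.card {l // β l = β i} :=
    Fintype.card_eq_nat_card
  set N := Nat.card {l // β l = β i} with hN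
  let e : Fin N ≃ {l // β l = β i} := (Fintype.equivFinOfCardEq hc).symm
  let ι : Fin N ↪ Fin n := ⟨fun a => (e a).1, fun a b h => e.injective (Subtype.ext h)⟩
  have hι : ∀ a b, β (ι a) = β (ι b) := fun a b => (e a).2.trans (e b).2.symm
  have hi : ι (e.symm ⟨i, rfl⟩) = i := by
    show (e (e.symm ⟨i, rfl⟩)).1 = i
    rw [Equiv.apply_symm_apply]
  have hj : ι (e.symm ⟨j, hij.symm⟩) = j := by
    show (e (e.symm ⟨j, hij.symm⟩)).1 = j
    rw [Equiv.apply_symm_apply]
  have h1 := hR N V (ρ.comp (embB hA ι hι)) (by omega)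
    (Mono.dg (REP.df (p := p) (e.symm ⟨i, rfl⟩) (e.symm ⟨j, hij.symm⟩)).1 (REP.s0 _)) rfl v
  have h2 : cd hA (ι (e.symm ⟨i, rfl⟩)) (ι (e.symm ⟨j, hij.symm⟩))
      (hι (e.symm ⟨i, rfl⟩) (e.symm ⟨j, hij.symm⟩)) = cd hA i j hij := by
    unfold cd
    congr 2
    rw [hi, hj]
  rw [MonoidHom.comp_apply, embB_df, h2] at h1
  exact h1

end Pool.Agent.P8H33.ZB
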