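import Pool.Agent.Helper381.Defs

/-!
# Definitions: block groups, the bound for the layers, matrix groups
-/

set_option autoImplicit false

namespace Pool.Agent.P8H33.ZB

open Module Matrix Pool.Agent.Helper381

/-! ### Block groups -/

/-- The group `(ℤ/p)^n ⋊ S_n`: pairs of a vector and a permutation of the coordinates. -/
structure FG (n p : ℕ) where
  v : Fin n → ZMod p
  σ : Equiv.Perm (Fin n)

namespace FG

variable {n p : ℕ}

@[ext] theorem ext' {g h : FG n p} (h1 : g.v = h.v) (h2 : g.σ = h.σ) : g = h := by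
  cases g; cases h
  simp only at h1 h2
  subst h1 h2
  rfl

instance : Group (FG n p) where
  mul g h := ⟨fun i => g.v i + h.v (g.σ⁻¹ i), g.σ * h.σ⟩
  one := ⟨0, 1⟩
  inv g := ⟨fun i => - g.v (g.σ i), g.σ⁻¹⟩
  mul_assoc g h k := by
    apply ext'
    · funext i
      show g.v i + h.v (g.σ⁻¹ i) + k.v ((g.σ * h.σ)⁻¹ i) =
        g.v i + (h.v (g.σ⁻¹ i) + k.v (h.σ⁻¹ (g.σ⁻¹ i)))
      rw [_root_.mul_inv_rev, Equiv.Perm.mul_apply, add_assoc]
    · exact mul_assoc _ _ _
  one_mul g := by
    apply ext'
    · funext i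
      show (0 : ZMod p) + g.v ((1 : Equiv.Perm (Fin n))⁻¹ i) = g.v i
      simp
    · exact one_mul _
  mul_one g := by
    apply ext'
    · funext i
      show g.v i + (0 : ZMod p) = g.v i
      simp
    · exact mul_one _
  inv_mul_cancel g := by
    apply ext'
    · funext i
      show - g.v (g.σ i) + g.v ((g.σ⁻¹)⁻¹ i) = 0
      simp
    · exact inv_mul_cancel _

end FG

variable {n p : ℕ} {I : Type}

/-- The subgroup of `(ℤ/p)^n ⋊ S_n` generated by the vectors in `A` and the 3-cycles of
coordinates which belong to one block of the partition given by `β`. -/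
def BG (β : Fin n → I) (A : Submodule (ZMod p) (Fin n → ZMod p)) : Subgroup (FG n p) :=
  Subgroup.closure {g | (g.σ = 1 ∧ g.v ∈ A) ∨
    (g.v = 0 ∧ g.σ.IsThreeCycle ∧ ∀ i, β (g.σ i) = β i)}

/-- `A` contains the differences of the unit vectors of two coordinates of one block. -/
def Adm (β : Fin n → I) (A : Submodule (ZMod p) (Fin n → ZMod p)) : Prop :=
  ∀ i j, β i = β j → (Pi.single i 1 - Pi.single j 1 : Fin n → ZMod p) ∈ A

/-- The vectors with coordinate sum zero. -/
def Z0 (n p : ℕ) : Submodule (ZMod p) (Fin n → ZMod p) where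
  carrier := {v | ∑ i, v i = 0}
  add_mem' := by
    intro v w hv hw
    show ∑ i, (v i + w i) = 0
    rw [Finset.sum_add_distrib, show ∑ i, v i = 0 from hv, show ∑ i, w i = 0 from hw, add_zero]
  zero_mem' := by simp
  smul_mem' := by
    intro c v hv
    show ∑ i, c * v i = 0
    rw [← Finset.mul_sum, show ∑ i, v i = 0 from hv, mul_zero]

/-! ### The bound for the number of layers -/

/-- The span of the differences of the unit vectors of two coordinates which belong to one block
with at least `2 k + 2` elements. -/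
def dsp (β : Fin n → I) (p k : ℕ) : Submodule (ZMod p) (Fin n → ZMod p) :=
  Submodule.span (ZMod p) {w | ∃ i j, β i = β j ∧ 2 * k + 2 ≤ Nat.card {l // β l = β i} ∧
    w = Pi.single i 1 - Pi.single j 1}

/-- `t (p - 1) + 1`, `t = dim A - dim (dsp β p k)`. -/
noncomputable def lam (β : Fin n → I) (A : Submodule (ZMod p) (Fin n → ZMod p)) (k : ℕ) : ℕ :=
  (finrank (ZMod p) A - finrank (ZMod p) (dsp β p k)) * (p - 1) + 1

/-- The bound for the number of layers of a representation of dimension `b`: the minimum of `b` and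
the numbers `l + (l + 1) ⌊b / k⌋`, `l = lam β A k`, `k = 1, 2, …` -/
noncomputable def layB (β : Fin n → I) (A : Submodule (ZMod p) (Fin n → ZMod p)) (b : ℕ) : ℕ :=
  sInf {x | x = b ∨ ∃ k, 0 < k ∧ x = lam β A k + (lam β A k + 1) * (b / k)}

/-- The sum of `L (dim H^i(M; K))` over all degrees `i`. -/
noncomputable def layerSumL (K : Type) [Field K] (M : Type) [TopologicalSpace M]
    (L : ℕ → ℕ) : ℕ :=
  ∑ᶠ i : ℕ, L (finrank K (SingularCohomology K M i))

/-- The rank of an elementary abelian `p`-group which acts faithfully on a real vector space of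
dimension `m` is at most `rk p m`, which is `m` for `p = 2` and `⌊m / 2⌋` for odd `p`. -/
def rk (p m : ℕ) : ℕ := if p = 2 then m else m / 2

/-- The condition `rk + h + dim F ≤ dim A`, `h = ∑ L (b_i)`, `b_i = dim H^i(M; K)`,
`L = layB β A`. -/
def InRangeA (K : Type) [Field K] (M : Type) [TopologicalSpace M] (β : Fin n → I)
    (A F : Submodule (ZMod p) (Fin n → ZMod p)) (m : ℕ) : Prop :=
  rk p m + layerSumL K M (layB β A) + finrank (ZMod p) F ≤ finrank (ZMod p) A

/-! ### Matrix groups -/

/-- The monomial matrix with entries `ζ ^ v a` in the places `(a, b)`, `a = σ b`, on the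
coordinates in the image of `ι`, and the identity matrix on the other coordinates. -/
noncomputable def mt {R : Type} [Ring R] {J : Type} [Fintype J] [DecidableEq J] (ζ : R)
    (ι : Fin n ↪ J) (g : FG n p) : Matrix J J R :=
  fun a b => if a = g.σ.viaFintypeEmbedding ι b then ζ ^ (Function.extend ι g.v 0 a).val else 0

/-- Every normal subgroup of a group `Γ` of matrices over a ring `R` consists of diagonal matrices
with all diagonal entries equal to an element `c` of the center of `R`, or has finite index. -/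
def ScalarNSP {R : Type} [Ring R] {J : Type} [Fintype J] [DecidableEq J] {Γ : Type} [Group Γ]
    (j : Γ →* (Matrix J J R)ˣ) : Prop :=
  ∀ H : Subgroup Γ, H.Normal →
    (∀ h ∈ H, ∃ c : R, (∀ r, c * r = r * c) ∧
      ((j h : (Matrix J J R)ˣ) : Matrix J J R) = diagonal (fun _ => c)) ∨ Finite (Γ ⧸ H)

/-- The unitary group of the form `∑ i, star (x i) * d i * y i` over a ring with involution. -/
def UG {R : Type} [Ring R] [StarRing R] (d : Fin n → R) :
    Subgroup (Matrix (Fin n) (Fin n) R)ˣ where
  carrier := {g | (g : Matrix (Fin n) (Fin n) R)ᴴ * diagonal d *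
    (g : Matrix (Fin n) (Fin n) R) = diagonal d}
  mul_mem' := by
    intro g h hg hh
    show ((g * h : (Matrix (Fin n) (Fin n) R)ˣ) : Matrix (Fin n) (Fin n) R)ᴴ *
      diagonal d * ((g * h : (Matrix (Fin n) (Fin n) R)ˣ) : Matrix (Fin n) (Fin n) R) = _
    rw [Units.val_mul, conjTranspose_mul]
    calc (h : Matrix (Fin n) (Fin n) R)ᴴ * (g : Matrix (Fin n) (Fin n) R)ᴴ * diagonal d *
          ((g : Matrix (Fin n) (Fin n) R) * (h : Matrix (Fin n) (Fin n) R))
        = (h : Matrix (Fin n) (Fin n) R)ᴴ * ((g : Matrix (Fin n) (Fin n) R)ᴴ * diagonal d *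
          (g : Matrix (Fin n) (Fin n) R)) * (h : Matrix (Fin n) (Fin n) R) := by
            simp only [Matrix.mul_assoc]
      _ = diagonal d := by rw [show _ = diagonal d from hg]; exact hh
  one_mem' := by
    show ((1 : (Matrix (Fin n) (Fin n) R)ˣ) : Matrix (Fin n) (Fin n) R)ᴴ *
      diagonal d * ((1 : (Matrix (Fin n) (Fin n) R)ˣ) : Matrix (Fin n) (Fin n) R) = _
    rw [Units.val_one, conjTranspose_one, Matrix.one_mul, Matrix.mul_one]
  inv_mem' := by
    intro g hg
    have h1 : (g : Matrix (Fin n) (Fin n) R) *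
        ((g⁻¹ : (Matrix (Fin n) (Fin n) R)ˣ) : Matrix (Fin n) (Fin n) R) = 1 := Units.mul_inv g
    show ((g⁻¹ : (Matrix (Fin n) (Fin n) R)ˣ) : Matrix (Fin n) (Fin n) R)ᴴ *
      diagonal d * ((g⁻¹ : (Matrix (Fin n) (Fin n) R)ˣ) : Matrix (Fin n) (Fin n) R) = _
    have h2 : (g : Matrix (Fin n) (Fin n) R)ᴴ * diagonal d *
      (g : Matrix (Fin n) (Fin n) R) = diagonal d := hg
    nth_rewrite 1 [← h2]
    calc ((g⁻¹ : (Matrix (Fin n) (Fin n) R)ˣ) : Matrix (Fin n) (Fin n) R)ᴴ *
          ((g : Matrix (Fin n) (Fin n) R)ᴴ * diagonal d * (g : Matrix (Fin n) (Fin n) R)) *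
          ((g⁻¹ : (Matrix (Fin n) (Fin n) R)ˣ) : Matrix (Fin n) (Fin n) R)
        = ((g : Matrix (Fin n) (Fin n) R) *
            ((g⁻¹ : (Matrix (Fin n) (Fin n) R)ˣ) : Matrix (Fin n) (Fin n) R))ᴴ *
          diagonal d * ((g : Matrix (Fin n) (Fin n) R) *
            ((g⁻¹ : (Matrix (Fin n) (Fin n) R)ˣ) : Matrix (Fin n) (Fin n) R)) := by
            rw [conjTranspose_mul]
            simp only [Matrix.mul_assoc]
      _ = diagonal d := by rw [h1, conjTranspose_one, Matrix.one_mul, Matrix.mul_one]

/-- The special unitary group of the form `∑ i, star (x i) * d i * y i` over a commutative ring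
with involution. -/
def SU {R : Type} [CommRing R] [StarRing R] (d : Fin n → R) :
    Subgroup (Matrix.SpecialLinearGroup (Fin n) R) :=
  (UG d).comap Matrix.SpecialLinearGroup.toGL

end Pool.Agent.P8H33.ZB
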