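import Pool.Agent.P8H33.ZB.Def
import Pool.Agent.P8H83.ZL.Main

/-!
# Finite groups acting on closed manifolds: isotropy and the layers of the cohomology, all primes
-/

set_option autoImplicit false

namespace Pool.Agent.P8H33.ZB

open Module Pool.Agent.H185.ZM Pool.Agent.Helper381 Pool.Agent.P8H83.ZL
open scoped Manifold ContDiff

/-- Every pair `B ≤ Z` of invariant subspaces of a representation of `P`, `b = dim Z - dim B`, is
joined by a chain of length `L b` with `D` acting trivially on the quotients. -/
def LayerBound (K P : Type) [Field K] [Group P] (D : Subgroup P) (L : ℕ → ℕ) : Prop :=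
  ∀ (V : Type) [AddCommGroup V] [Module K V] [FiniteDimensional K V] (ρ : P →* (V →ₗ[K] V))
    (B Z : Submodule K V), B ≤ Z → (∀ g, ∀ v ∈ B, ρ g v ∈ B) → (∀ g, ∀ v ∈ Z, ρ g v ∈ Z) →
    ∃ S : ℕ → Submodule K V, S 0 = B ∧ S (L (finrank K Z - finrank K B)) = Z ∧
      (∀ i, S i ≤ S (i + 1)) ∧ (∀ i, ∀ v ∈ S (i + 1), ∀ g ∈ D, ρ g v - v ∈ S i)

theorem card_le_rk {p : ℕ} (hp : p.Prime) (n : ℕ) (V : Type) [AddCommGroup V]
    [Module ℝ V] [FiniteDimensional ℝ V] (A : Type) [CommGroup A] [Finite A]
    (ρ : A →* (V →ₗ[ℝ] V)) (hn : finrank ℝ V = n) (hA : ∀ a : A, a ^ p = 1)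
    (hρ : Function.Injective ρ) : Nat.card A ≤ p ^ (rk p n) := by
  unfold rk
  by_cases h : p = 2
  · subst h
    rw [if_pos rfl]
    exact card_le_two_pow n V A ρ hn (fun a => by
      rw [show (4 : ℕ) = 2 * 2 by norm_num, pow_mul, hA]) hρ
  · rw [if_neg h]
    exact card_le_p_pow hp h n V A ρ hn hA hρ

/-- The abstract theorem. -/
def S_MAIN2 : Prop := ∀ (p : ℕ), p.Prime → ∀ (K : Type) [Field K] [CharP K p] [Infinite K]
  (E : Type) [NormedAddCommGroup E] [NormedSpace ℝ E] [FiniteDimensional ℝ E]
  (M : Type) [TopologicalSpace M] [ChartedSpace E M] [IsManifold 𝓘(ℝ, E) ∞ M]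
  [CompactSpace M] [T2Space M] [ConnectedSpace M] (P : Type) [Group P] [Finite P]
  (D : Subgroup P) (L : ℕ → ℕ), L 0 = 0 → LayerBound K P D L →
  ∀ (r : ℕ) (e : EA p r →* P), (∀ g, e g ∈ D) →
  ∀ (a : P → M → M), SmoothAction E a →
    rk p (finrank ℝ E) + layerSumL K M L < r + 1 →
    ∃ g : EA p r, g ≠ 1 ∧ ∀ x, a (e g) x = x

theorem main2_proof (hA : S_A) (hGEN : S_GEN) (hKER : S_KER) (hDIM : S_DIM) (hLEV : S_LEV)
    (hFLG : S_FLG) : S_MAIN2 := by
  intro p hp K _ _ _ E _ _ _ M _ _ _ _ _ _ P _ _ D L hL0 hL r e he a ha hlt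
  by_contra hcon
  push Not at hcon
  -- the action of the elementary abelian group is effective
  let b : EA p r → M → M := fun g => a (e g)
  have hb : SmoothAction E b :=
    { one := fun x => by show a (e 1) x = x; rw [map_one]; exact ha.one x
      mul := fun g h x => by show a (e (g * h)) x = _; rw [map_mul]; exact ha.mul _ _ _
      smooth := fun g => ha.smooth _ }
  have hbf : ∀ g, (∀ y, b g y = y) → g = 1 := by
    intro g hg
    by_contra h1
    obtain ⟨x, hx⟩ := hcon g h1
    exact hx (hg x)
  have : Fact p.Prime := ⟨hp⟩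
  have : NeZero p := ⟨hp.ne_zero⟩
  have hfinE : Finite (EA p r) := inferInstanceAs (Finite (Fin r → ZMod p))
  obtain ⟨X, φ, d, N, hXf, hXe, hX0, hdd, hd1, hdφ, hfix, hfr⟩ :=
    top_proof E M P a ha K
  set m := finrank ℝ E with hm
  -- the stabilizers
  have hstab : ∀ n (x : X n), Nat.card {g : EA p r // φ n (e g) x = x} ≤ p ^ (rk p m) := by
    intro n x
    obtain ⟨y, hy⟩ := hfix n x
    let Q : Subgroup (EA p r) :=
      { carrier := {g | φ n (e g) x = x}
        mul_mem' := by
          intro g h hg hh
          show φ n (e (g * h)) x = x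
          rw [map_mul, map_mul, Equiv.Perm.mul_apply, show φ n (e h) x = x from hh]
          exact hg
        one_mem' := by
          show φ n (e 1) x = x
          rw [map_one, map_one]; rfl
        inv_mem' := by
          intro g hg
          show φ n (e g⁻¹) x = x
          rw [map_inv, map_inv, Equiv.Perm.inv_eq_iff_eq]
          exact (show φ n (e g) x = x from hg).symm }
    obtain ⟨V, _, _, _, ρ, hV, hρ⟩ := exists_isotropy hb hbf y Q (fun q hq => hy (e q) hq)
    have hqp : ∀ q : Q, q ^ p = 1 := fun q => by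
      apply Subtype.ext
      show (q : EA p r) ^ p = 1
      have h2 : p • (Multiplicative.toAdd (q : EA p r)) = 0 := by
        funext i
        simp
      exact congrArg Multiplicative.ofAdd h2
    have h1 := card_le_rk hp (finrank ℝ V) V Q ρ rfl hqp hρ
    rw [hV] at h1
    exact h1
  -- the numbers
  have hb0 : ∀ n, N ≤ n → finrank K (SingularCohomology K M n) = 0 := by
    intro n hn
    have h1 := hfr n
    have h2 := hXe n hn
    have h3 : finrank K (LinearMap.ker (d n)) = 0 := by
      have h4 : finrank K (X n → K) = 0 := by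
        have := Fintype.ofFinite (X n)
        rw [Module.finrank_fintype_fun_eq_card, Fintype.card_eq_zero_iff]
        exact h2
      have h5 := Submodule.finrank_le (LinearMap.ker (d n))
      omega
    omega
  have hsum : layerSumL K M L =
      ∑ n ∈ Finset.range N, L (finrank K (SingularCohomology K M n)) := by
    unfold layerSumL
    rw [finsum_eq_sum_of_support_subset]
    intro n hn
    rw [Function.mem_support] at hn
    rw [Finset.coe_range, Set.mem_Iio]
    by_contra hlt
    exact hn (by rw [hb0 n (not_lt.1 hlt), hL0])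
  set h := ∑ n ∈ Finset.range N, L (finrank K (SingularCohomology K M n)) with hh
  rw [hsum] at hlt
  let s := rk p m
  let t := r - s
  have hst : s + t = r ∧ h ≤ t := by
    show rk p m + (r - rk p m) = r ∧ h ≤ r - rk p m
    omega
  obtain ⟨A, hA'⟩ := hGEN p hp K t r
  have hp1 : p - 1 + 1 = p := Nat.sub_add_cancel hp.one_le
  let ψ : ∀ n, EA p r →* Equiv.Perm (X n) := fun n => (φ n).comp e
  -- the complex
  let G : GC K (Fin t) (p - 1) :=
    { C := fun n => X n → K
      d := d
      x := fun j n => shift (permR K (ψ n)) (A j)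
      dd := hdd
      dx := fun i n v => shift_map (permR K (ψ n)) (permR K (ψ (n + 1))) (d n)
        (fun g v => hdφ n (e g) v) (A i) v
      xx := fun i j n v => shift_comm _ _ _ v
      xp := fun i n v => by
        rw [hp1, sp_proof p hp K r (X n → K) (permR K (ψ n)) (A i)]
        rfl }
  have hG0 : ∀ n, N ≤ n → ∀ v : G.C n, v = 0 := by
    intro n hn v
    have := hXe n hn
    funext x
    exact this.elim x
  have hbnd : ∀ n, G.bnd n = cobound K (fun n => X n → K) d n := by
    intro n
    cases n with
    | zero => rfl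
    | succ n => rfl
  -- freeness
  have hfree : ∀ n, FreeOver (List.finRange t) (G.deg n) := by
    intro n
    have := hXf n
    have := Fintype.ofFinite (X n)
    have hfd : FiniteDimensional K (G.deg n).V := inferInstanceAs (FiniteDimensional K (X n → K))
    apply hDIM K (Fin t) (p - 1) (List.finRange t) (G.deg n)
    have h1 := hKER p hp K t r s A hA' hst.1.le (X n) (ψ n) (hstab n)
    have h2 : (⨅ j ∈ List.finRange t, LinearMap.ker ((G.deg n).x j) :
        Submodule K (G.deg n).V) =
        (⨅ j, LinearMap.ker (shift (permR K (ψ n)) (A j)) : Submodule K (X n → K)) := by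
      refine iInf_congr fun j => ?_
      rw [iInf_pos (List.mem_finRange j)]
      rfl
    rw [h2, List.length_finRange, hp1]
    refine h1.trans (le_of_eq ?_)
    show Nat.card (X n) = finrank K (X n → K)
    rw [Module.finrank_fintype_fun_eq_card, Nat.card_eq_fintype_card]
  have hflag : Flag (List.finRange t) G.tot := hFLG K (Fin t) (p - 1) G N hG0 _ hfree
  -- the level
  have hlay : ∀ n, ∃ S : ℕ → Submodule K (X n → K), S 0 = G.bnd n ∧
      S (L (finrank K (SingularCohomology K M n))) = LinearMap.ker (d n) ∧
      (∀ i, S i ≤ S (i + 1)) ∧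
      (∀ i, ∀ v ∈ S (i + 1), ∀ g ∈ D, permR K (φ n) g v - v ∈ S i) := by
    intro n
    have := hXf n
    have := Fintype.ofFinite (X n)
    have hle : G.bnd n ≤ LinearMap.ker (d n) := by
      cases n with
      | zero => exact bot_le
      | succ n =>
        rintro _ ⟨f, rfl⟩
        exact hdd n f
    obtain ⟨S, h1, h2, h3, h4⟩ := hL (X n → K) (permR K (φ n))
      (G.bnd n) (LinearMap.ker (d n)) hle (fun g v hv => by
        cases n with
        | zero =>
          have h5 : v = 0 := hv
          rw [h5, map_zero]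
          exact Submodule.zero_mem _
        | succ n =>
          obtain ⟨f, rfl⟩ := hv
          exact ⟨permR K (φ n) g f, hdφ n g f⟩) (fun g v hv => by
        rw [LinearMap.mem_ker] at hv ⊢
        rw [hdφ, hv, map_zero])
    refine ⟨S, h1, ?_, h3, h4⟩
    have h5 := hfr n
    have h6 : finrank K (SingularCohomology K M n) =
        finrank K (LinearMap.ker (d n)) - finrank K (G.bnd n) := by
      rw [hbnd, h5]
      exact (Nat.add_sub_cancel_left _ _).symm
    rw [h6]
    exact h2
  choose S hS0 hS1 hS2 hS3 using hlay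
  have hlevel : Level h G.tot := by
    refine hLEV K (Fin t) (p - 1) G N hG0
      (fun n => L (finrank K (SingularCohomology K M n))) S hS0 hS1 hS2 ?_
    intro n i j v hv
    show shift (permR K (ψ n)) (A j) v ∈ S n i
    unfold shift
    rw [LinearMap.sum_apply]
    refine Submodule.sum_mem _ fun l _ => ?_
    rw [LinearMap.smul_apply]
    apply Submodule.smul_mem
    exact hS3 n i v hv (e (EA.gen l)) (he _)
  -- the contradiction
  have hac : Acyc G.tot := hA K (Fin t) (p - 1) (by have := hp.two_le; omega) (List.finRange t) h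
    G.tot hflag hlevel (by rw [List.length_finRange]; exact hst.2)
  obtain ⟨w, hw⟩ := hac (fun n => match n with
    | 0 => fun _ => 1
    | n + 1 => 0) (by
      funext n
      match n with
      | 0 => rfl
      | 1 => exact hd1
      | n + 2 => exact map_zero (d (n + 1)))
  have h1 : (0 : X 0 → K) = fun _ => 1 := congrFun hw 0
  obtain ⟨x⟩ := hX0
  have h2 : (0 : K) = 1 := congrFun h1 x
  exact zero_ne_one h2

end Pool.Agent.P8H33.ZB
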