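import Pool.Agent.P8H33.ZB.Blk
import Pool.Agent.P8H33.ZB.Main2

/-!
# The layer bound for the block groups
-/

set_option autoImplicit false

namespace Pool.Agent.P8H33.ZB

open Equiv Module Pool.Agent.P8H83.ZL Pool.Agent.P8H83.ZL.LAYaux

variable {n p : ℕ} {I : Type}

variable {β : Fin n → I} {A : Submodule (ZMod p) (Fin n → ZMod p)}

theorem layB_zero : layB β A 0 = 0 :=
  Nat.le_zero.1 (Nat.sInf_le (Or.inl rfl))

theorem layB_le (b : ℕ) : layB β A b ≤ b := Nat.sInf_le (Or.inl rfl)

theorem layB_le' (b k : ℕ) (hk : 0 < k) :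
    layB β A b ≤ lam β A k + (lam β A k + 1) * (b / k) := Nat.sInf_le (Or.inr ⟨k, hk, rfl⟩)

theorem cv_pow (y : CV A) : y ^ p = 1 := by
  have h : p • Multiplicative.toAdd y = 0 := by
    apply Subtype.ext
    show p • (Multiplicative.toAdd y).1 = 0
    funext i
    simp
  exact congrArg Multiplicative.ofAdd h

theorem dsp_le (hA : Adm β A) (k : ℕ) : dsp β p k ≤ A := by
  unfold dsp
  rw [Submodule.span_le]
  rintro w ⟨i, j, hij, -, rfl⟩
  exact hA i j hij

/-- The vectors in the block group. -/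
def DB (β : Fin n → I) (A : Submodule (ZMod p) (Fin n → ZMod p)) : Subgroup (BG β A) :=
  (cB β A).range

theorem conj_dg (g : FG n p) (v : Fin n → ZMod p) :
    g * ⟨v, 1⟩ * g⁻¹ = ⟨fun i => v (g.σ⁻¹ i), 1⟩ := by
  apply FG.ext'
  · funext i
    rw [FG.mul_v, FG.mul_v, FG.inv_v, FG.mul_σ]
    show g.v i + v (g.σ⁻¹ i) + - g.v (g.σ ((g.σ * 1)⁻¹ i)) = v (g.σ⁻¹ i)
    rw [mul_one]
    have h : g.σ (g.σ⁻¹ i) = i := by simp
    rw [h]
    ring
  · rw [FG.mul_σ, FG.mul_σ, FG.inv_σ]
    show g.σ * 1 * g.σ⁻¹ = 1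
    rw [mul_one, mul_inv_cancel]

theorem normal_DB (hA : Adm β A) : (DB β A).Normal := ⟨by
  rintro _ ⟨y, rfl⟩ g
  refine ⟨Multiplicative.ofAdd ⟨_, hA.perm g.1.σ (BG_block g.2) (Multiplicative.toAdd y).2⟩, ?_⟩
  apply Subtype.ext
  exact (conj_dg g.1 _).symm⟩

theorem isPGroup_DB : IsPGroup p (DB β A) := by
  rintro ⟨_, ⟨y, rfl⟩⟩
  refine ⟨1, ?_⟩
  apply Subtype.ext
  show (cB β A y) ^ p ^ 1 = 1
  rw [pow_one, ← map_pow, cv_pow, map_one]

/-- few layers in small dimensions -/
theorem chain_small {K : Type} [Field K] (hp : p.Prime) [CharP K p]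
    (hR : ∀ N, SmallTriv K (WG N p) (WG.D N p) ((N - 2) / 2))
    (hA : Adm β A) {k : ℕ} {V : Type} [AddCommGroup V] [Module K V]
    [FiniteDimensional K V] (ρ : BG β A →* (V →ₗ[K] V)) (B U : Submodule K V) (hBU : B ≤ U)
    (hB : Stab ρ B) (hU : Stab ρ U) (hk : finrank K U - finrank K B < k) :
    Chain ρ (DB β A) B U (lam β A k) := by
  classical
  have : Fact p.Prime := ⟨hp⟩
  -- a complement
  obtain ⟨W, hW⟩ := Submodule.exists_isCompl ((dsp β p k).submoduleOf A)
  have hf : finrank (ZMod p) W = finrank (ZMod p) A - finrank (ZMod p) (dsp β p k) := by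
    have h1 := Submodule.finrank_add_eq_of_isCompl hW
    rw [LinearEquiv.finrank_eq (Submodule.submoduleOfEquivOfLe (dsp_le hA k))] at h1
    omega
  let bs := finBasis (ZMod p) W
  obtain ⟨S, h0, h1, h2, h3⟩ := chain_few hp (ρ.comp (cB β A)) hBU (fun g v hv => hB _ v hv)
    (fun g v hv => hU _ v hv) (Finset.univ : Finset (Fin (finrank (ZMod p) W)))
    (fun t => (Multiplicative.ofAdd (bs t : A) : CV A)) (fun c => cv_pow _) (by
      intro H hH1 hH2
      let H' : Submodule (ZMod p) A := AddSubgroup.toZModSubmodule p (Subgroup.toAddSubgroup' H)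
      have hH' : ∀ y : A, y ∈ H' ↔ (Multiplicative.ofAdd y : CV A) ∈ H := fun y => Iff.rfl
      have hd : (dsp β p k).submoduleOf A ≤ H' := by
        have h4 : dsp β p k ≤ H'.map A.subtype := by
          unfold dsp
          rw [Submodule.span_le]
          rintro w ⟨i, j, hij, hc, rfl⟩
          refine ⟨⟨_, hA i j hij⟩, ?_, rfl⟩
          show (Multiplicative.ofAdd _ : CV A) ∈ H
          apply hH1
          intro v hv
          rw [MonoidHom.comp_apply]
          show ρ (cB β A (cd hA i j hij)) v - v ∈ B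
          rw [← quotRep_mk ρ hB hU (cB β A (cd hA i j hij)) v hv]
          exact small_block hR hA (quotRep ρ hB hU) (by rw [finrank_quot hBU]; exact hk) i j hij
            hc _
        intro y hy
        obtain ⟨z, hz, hzy⟩ := h4 hy
        have h5 : z = y := Subtype.ext hzy
        rw [← h5]
        exact hz
      have hw : W ≤ H' := by
        intro w hw
        have h4 := bs.sum_repr ⟨w, hw⟩
        have h5 : w = ∑ i, (bs.repr ⟨w, hw⟩) i • (bs i : A) := by
          have h6 := congrArg Subtype.val h4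
          rw [Submodule.coe_sum] at h6
          exact h6.symm
        rw [h5]
        exact H'.sum_mem fun i _ => H'.smul_mem _ (hH2 i (Finset.mem_univ i))
      have htop : (⊤ : Submodule (ZMod p) A) ≤ H' := by
        rw [← hW.sup_eq_top]
        exact sup_le hd hw
      intro y
      exact htop (Submodule.mem_top (x := Multiplicative.toAdd y)))
  rw [Finset.card_univ, Fintype.card_fin, hf] at h1
  refine ⟨S, h0, h1, h2, ?_⟩
  rintro i v hv _ ⟨y, rfl⟩
  exact h3 i v hv y

theorem finite_BG (hp : p.Prime) : Finite (BG β A) := by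
  have : NeZero p := ⟨hp.ne_zero⟩
  have : Finite (FG n p) := by
    apply Finite.of_injective (fun g : FG n p => (g.v, g.σ))
    intro g h hgh
    exact FG.ext' (congrArg Prod.fst hgh) (congrArg Prod.snd hgh)
  exact Subtype.finite

theorem layerBound {K : Type} [Field K] (hp : p.Prime) [CharP K p]
    (hR : ∀ N, SmallTriv K (WG N p) (WG.D N p) ((N - 2) / 2))
    (hA : Adm β A) : LayerBound K (BG β A) (DB β A) (layB β A) := by
  have := finite_BG (β := β) (A := A) hp
  have : Finite (DB β A) := Subtype.finite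
  have := normal_DB hA
  intro V _ _ _ ρ B Z hBZ hB hZ
  have hmem : layB β A (finrank K Z - finrank K B) ∈ {x | x = (finrank K Z - finrank K B) ∨
      ∃ k, 0 < k ∧ x = lam β A k + (lam β A k + 1) * ((finrank K Z - finrank K B) / k)} :=
    Nat.sInf_mem ⟨_, Or.inl rfl⟩
  rcases hmem with h | ⟨k, hk, h⟩
  · rw [h]
    exact chain_dim hp ρ (DB β A) isPGroup_DB hZ _ B hBZ hB rfl
  · rw [h]
    exact chain_gen hp ρ (DB β A) isPGroup_DB hk
      (fun B U hBU hB hU hlt => chain_small hp hR hA ρ B U hBU hB hU hlt) hZ _ B hBZ hB rfl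

end Pool.Agent.P8H33.ZB
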