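import Pool.Agent.P8H33.ZB.WgA

/-!
# Matrix groups and unitary groups
-/

set_option autoImplicit false

namespace Pool.Agent.P8H33.ZB

open Equiv Module Pool.Agent.H185.ZM Pool.Agent.Helper381 Pool.Agent.P8H83.ZL Matrix
open scoped Manifold ContDiff

section mono

variable {n p : ℕ} {R : Type} [Ring R] {J : Type} [Fintype J] [DecidableEq J]

theorem pow_mod'' {ζ : R} (hζ : ζ ^ p = 1) (m : ℕ) : ζ ^ (m % p) = ζ ^ m := by
  conv_rhs => rw [← Nat.mod_add_div m p, pow_add, pow_mul, hζ, one_pow, mul_one]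

theorem zadd [NeZero p] {ζ : R} (hζ : ζ ^ p = 1) (a b : ZMod p) :
    ζ ^ (a + b).val = ζ ^ a.val * ζ ^ b.val := by
  rw [ZMod.val_add, pow_mod'' hζ, pow_add]

theorem mt_def (ζ : R) (ι : Fin n ↪ J) (g : FG n p) (a b : J) : mt ζ ι g a b =
    if a = g.σ.viaFintypeEmbedding ι b then ζ ^ (Mono.ext0 ι g.v a).val else 0 := rfl

theorem mt_one (ζ : R) (ι : Fin n ↪ J) : mt ζ ι (1 : FG n p) = 1 := by
  ext a b
  rw [mt_def]
  have h : Mono.ext0 ι (0 : Fin n → ZMod p) a = 0 := by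
    by_cases hx : a ∈ Set.range ι
    · obtain ⟨i, rfl⟩ := hx
      rw [Mono.ext0_apply]; rfl
    · rw [Mono.ext0_out _ _ _ hx]
  rw [Matrix.one_apply, FG.one_v, FG.one_σ, Mono.via_one, h, ZMod.val_zero, pow_zero]
  rfl

theorem mt_mul [NeZero p] {ζ : R} (hζ : ζ ^ p = 1) (ι : Fin n ↪ J) (g h : FG n p) :
    mt ζ ι (g * h) = mt ζ ι g * mt ζ ι h := by
  ext a c
  rw [Matrix.mul_apply]
  simp only [mt_def]
  rw [Finset.sum_eq_single ((g.σ.viaFintypeEmbedding ι)⁻¹ a)]
  · have h0 : a = g.σ.viaFintypeEmbedding ι ((g.σ.viaFintypeEmbedding ι)⁻¹ a) := by simp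
    rw [FG.mul_σ, Mono.via_mul, if_pos h0]
    by_cases h1 : (g.σ.viaFintypeEmbedding ι)⁻¹ a = h.σ.viaFintypeEmbedding ι c
    · have h2 : a = (g.σ.viaFintypeEmbedding ι * h.σ.viaFintypeEmbedding ι) c := by
        rw [Equiv.Perm.mul_apply, ← h1]; simp
      rw [if_pos h1, if_pos h2, ← zadd hζ, Mono.ext0_via, ← Mono.ext0_add]
      rfl
    · have h2 : ¬ a = (g.σ.viaFintypeEmbedding ι * h.σ.viaFintypeEmbedding ι) c := fun h' => h1 (by
        rw [h', Equiv.Perm.mul_apply]; simp)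
      rw [if_neg h1, if_neg h2, mul_zero]
  · intro b _ hb
    rw [if_neg (fun h => hb (by rw [h]; simp)), zero_mul]
  · intro h
    exact absurd (Finset.mem_univ _) h

/-- The homomorphism from `(ℤ/p)^n ⋊ S_n` given by monomial matrices. -/
noncomputable def monoU [NeZero p] {ζ : R} (hζ : ζ ^ p = 1) (ι : Fin n ↪ J) :
    FG n p →* (Matrix J J R)ˣ :=
  MonoidHom.toHomUnits
    { toFun := mt ζ ι
      map_one' := mt_one ζ ι
      map_mul' := mt_mul hζ ι }

theorem monoU_coe [NeZero p] {ζ : R} (hζ : ζ ^ p = 1) (ι : Fin n ↪ J) (g : FG n p) :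
    ((monoU hζ ι g : (Matrix J J R)ˣ) : Matrix J J R) = mt ζ ι g := rfl

theorem mt_diag (ζ : R) (ι : Fin n ↪ J) (g : FG n p) (hg : g.σ = 1) :
    mt ζ ι g = diagonal (fun x => ζ ^ (Mono.ext0 ι g.v x).val) := by
  ext a b
  rw [mt_def]
  rw [Matrix.diagonal_apply, hg, Mono.via_one]
  rfl

theorem z_inj (hp : p.Prime) {ζ : R} (hζ : ζ ^ p = 1) (hζ1 : ζ ≠ 1) {a b : ZMod p}
    (h : ζ ^ a.val = ζ ^ b.val) : a = b := by
  have : NeZero p := ⟨hp.ne_zero⟩
  have : Fact p.Prime := ⟨hp⟩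
  have ho : orderOf ζ = p := orderOf_eq_prime hζ hζ1
  have hu : IsUnit ζ := IsUnit.of_pow_eq_one hζ hp.ne_zero
  obtain ⟨u, rfl⟩ := hu
  have h1 : u ^ a.val = u ^ b.val := by
    apply Units.ext
    rw [Units.val_pow_eq_pow_val, Units.val_pow_eq_pow_val, h]
  rw [pow_eq_pow_iff_modEq] at h1
  have h2 : orderOf u = p := by rw [← orderOf_units, ho]
  rw [h2] at h1
  have h3 := Nat.ModEq.eq_of_lt_of_lt h1 (ZMod.val_lt a) (ZMod.val_lt b)
  exact ZMod.val_injective p h3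

/-- if a power `ζ ^ a`, `a ≠ 0`, commutes with `r` then `ζ` does -/
theorem z_comm (hp : p.Prime) {ζ : R} (hζ : ζ ^ p = 1) {a : ZMod p} (ha : a ≠ 0) {r : R}
    (h : ζ ^ a.val * r = r * ζ ^ a.val) : ζ * r = r * ζ := by
  have : NeZero p := ⟨hp.ne_zero⟩
  have : Fact p.Prime := ⟨hp⟩
  have h4 : ζ = (ζ ^ a.val) ^ (a⁻¹).val := by
    rw [← pow_mul, ← pow_mod'' hζ (a.val * (a⁻¹).val)]
    have h5 : a.val * (a⁻¹).val % p = 1 := by
      have h6 : (a * a⁻¹).val = a.val * (a⁻¹).val % p := ZMod.val_mul a a⁻¹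
      rw [← h6, mul_inv_cancel₀ ha]
      exact ZMod.val_one p
    rw [h5, pow_one]
  have h5 : Commute ((ζ ^ a.val) ^ (a⁻¹).val) r := Commute.pow_left h _
  rw [← h4] at h5
  exact h5

end mono

section

variable {n p : ℕ} {I : Type} {β : Fin n → I} {A F : Submodule (ZMod p) (Fin n → ZMod p)}
  {E : Type} [NormedAddCommGroup E] [NormedSpace ℝ E] [FiniteDimensional ℝ E]
  {M : Type} [TopologicalSpace M] [ChartedSpace E M] [IsManifold 𝓘(ℝ, E) ∞ M]

theorem matA (hM : S_MAIN2) (hp : p.Prime) [NeZero p] (K : Type) [Field K] [CharP K p]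
    [IsAlgClosed K] [CompactSpace M] [T2Space M] [ConnectedSpace M] (hA : Adm β A)
    (hr : InRangeA K M β A F (finrank ℝ E)) {R : Type} [Ring R] {ζ : R} (hζ : ζ ^ p = 1)
    (hζ1 : ζ ≠ 1) {J : Type} [Fintype J] [DecidableEq J] (ι : Fin n ↪ J)
    {Γ : Type} [Group Γ] (j : Γ →* (Matrix J J R)ˣ) (hj : Function.Injective j)
    (hΓ : ∀ g ∈ BG β A, monoU hζ ι g ∈ j.range)
    {α : Γ → (M ≃ₘ^∞⟮𝓘(ℝ, E), 𝓘(ℝ, E)⟯ M)} (hα : IsHom α) :
    (∃ (v : Fin n → ZMod p) (h : Γ), v ∈ A ∧ v ∉ F ∧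
      ((j h : (Matrix J J R)ˣ) : Matrix J J R) = diagonal (fun x => ζ ^ (Mono.ext0 ι v x).val) ∧
      ∀ x, α h x = x) ∧
    (((∀ v ∈ A, (∀ i l, v i = v l) → v ∈ F) ∨ ∃ r, ζ * r ≠ r * ζ) → ScalarNSP j →
      (Set.range α).Finite) := by
  let φ0 : BG β A →* j.range := ((monoU hζ ι).comp (BG β A).subtype).codRestrict j.range
    (fun g => hΓ g.1 g.2)
  let e : Γ ≃* j.range := MonoidHom.ofInjective hj
  let φ : BG β A →* Γ := e.symm.toMonoidHom.comp φ0
  have hφ : ∀ g : BG β A, j (φ g) = monoU hζ ι g.1 := by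
    intro g
    have h1 : e (φ g) = φ0 g := e.apply_symm_apply (φ0 g)
    exact congrArg Subtype.val h1
  obtain ⟨g, hg1, hgA, hgF, hx⟩ := groupA hM hp K hA hr φ hα
  have hd : ((j (φ g) : (Matrix J J R)ˣ) : Matrix J J R) =
      diagonal (fun x => ζ ^ (Mono.ext0 ι g.1.v x).val) := by
    rw [hφ, monoU_coe, mt_diag ζ ι g.1 hg1]
  refine ⟨⟨g.1.v, φ g, hgA, hgF, hd, hx⟩, fun hc hNS => ?_⟩
  apply hα.finite_range
  rcases hNS (actKer hα.action) inferInstance with h1 | h1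
  · exfalso
    obtain ⟨c, hcr, hc'⟩ := h1 (φ g) hx
    rw [hd] at hc'
    have h4 : ∀ i, ζ ^ (g.1.v i).val = c := fun i => by
      have := congrFun (Matrix.diagonal_injective hc') (ι i)
      simpa only [Mono.ext0_apply] using this
    rcases hc with hc | ⟨r, hr⟩
    · apply hgF
      exact hc _ hgA (fun i l => z_inj hp hζ hζ1 ((h4 i).trans (h4 l).symm))
    · have hne : ∃ i, g.1.v i ≠ 0 := by
        by_contra hcon
        push Not at hcon
        apply hgF
        have : g.1.v = 0 := funext hcon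
        rw [this]
        exact F.zero_mem
      obtain ⟨i, hi⟩ := hne
      apply hr
      apply z_comm hp hζ hi
      rw [h4 i]
      exact hcr r
  · exact h1

end

section unitary

variable {n p : ℕ}

theorem star_pow_mul {R : Type} [Ring R] [StarRing R] {ζ c : R} (h : star ζ * c * ζ = c) (m : ℕ) :
    star (ζ ^ m) * c * ζ ^ m = c := by
  induction m with
  | zero => rw [pow_zero, star_one, one_mul, mul_one]
  | succ m ih =>
    rw [pow_succ, star_mul]
    calc star ζ * star (ζ ^ m) * c * (ζ ^ m * ζ) = star ζ * (star (ζ ^ m) * c * ζ ^ m) * ζ := by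
          simp only [mul_assoc]
      _ = c := by rw [ih, h]

theorem via_refl (σ : Equiv.Perm (Fin n)) :
    σ.viaFintypeEmbedding (Function.Embedding.refl (Fin n)) = σ := by
  ext x
  exact congrArg Fin.val
    (Equiv.Perm.viaFintypeEmbedding_apply_image σ (Function.Embedding.refl (Fin n)) x)

theorem ext0_refl (v : Fin n → ZMod p) : Mono.ext0 (Function.Embedding.refl (Fin n)) v = v := by
  funext x
  exact Mono.ext0_apply (Function.Embedding.refl (Fin n)) v x

theorem mt_refl {R : Type} [Ring R] (ζ : R) (g : FG n p) (a b : Fin n) :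
    mt ζ (Function.Embedding.refl (Fin n)) g a b =
      if a = g.σ b then ζ ^ (g.v a).val else 0 := by
  rw [mt_def]
  rw [via_refl, ext0_refl]

theorem mt_unitary {R : Type} [Ring R] [StarRing R] (d : Fin n → R) {ζ : R}
    (h : ∀ i, star ζ * d i * ζ = d i) (g : FG n p) (hσ : ∀ i, d (g.σ i) = d i) :
    (mt ζ (Function.Embedding.refl (Fin n)) g)ᴴ * diagonal d *
      mt ζ (Function.Embedding.refl (Fin n)) g = diagonal d := by
  ext b c
  rw [Matrix.mul_apply]
  simp only [Matrix.mul_diagonal, conjTranspose_apply, mt_refl]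
  rw [Finset.sum_eq_single (g.σ b)]
  · rw [if_pos rfl]
    by_cases hbc : b = c
    · subst hbc
      rw [if_pos rfl, diagonal_apply_eq, star_pow_mul (h _), hσ]
    · rw [if_neg (fun h => hbc (g.σ.injective h)), mul_zero, diagonal_apply_ne _ hbc]
  · intro a _ ha
    rw [if_neg ha, star_zero, zero_mul, zero_mul]
  · intro h
    exact absurd (Finset.mem_univ _) h

theorem monoU_mem_UG {R : Type} [Ring R] [StarRing R] [NeZero p] (d : Fin n → R) {ζ : R}
    (hζ : ζ ^ p = 1) (h : ∀ i, star ζ * d i * ζ = d i)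
    {A : Submodule (ZMod p) (Fin n → ZMod p)} {g : FG n p} (hg : g ∈ BG d A) :
    monoU hζ (Function.Embedding.refl (Fin n)) g ∈ UG d :=
  mt_unitary d h g (BG_block hg)

theorem adm_top {I : Type} (β : Fin n → I) :
    Adm β (⊤ : Submodule (ZMod p) (Fin n → ZMod p)) := fun _ _ _ => Submodule.mem_top

theorem adm_S0 {I : Type} (β : Fin n → I) : Adm β (Z0 n p) :=
  fun i j _ => (REP.df (p := p) i j).2

/-- the monomial matrices with determinant one -/
theorem exists_SU {R : Type} [CommRing R] [StarRing R] [NeZero p] (d : Fin n → R) {ζ : R}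
    (hζ : ζ ^ p = 1) (h : ∀ i, star ζ * d i * ζ = d i) {g : FG n p}
    (hg : g ∈ BG d (Z0 n p)) :
    monoU hζ (Function.Embedding.refl (Fin n)) g ∈
      ((Matrix.SpecialLinearGroup.toGL (n := Fin n) (R := R)).comp (SU d).subtype).range := by
  have h1 : (mt ζ (Function.Embedding.refl (Fin n)) g).det = 1 := by
    have h2 : mt ζ (Function.Embedding.refl (Fin n)) g = Mono.mm ζ g.v g.σ := by
      ext a b
      rw [mt_refl]
      rfl
    rw [h2, Mono.mm_det hζ, BG_sum (fun v hv => hv) hg, BG_sign hg, Mono.zp_zero]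
    simp
  have h3 : Matrix.SpecialLinearGroup.toGL
      (⟨mt ζ (Function.Embedding.refl (Fin n)) g, h1⟩ : Matrix.SpecialLinearGroup (Fin n) R) =
      monoU hζ (Function.Embedding.refl (Fin n)) g := by
    apply Units.ext
    rfl
  refine ⟨⟨⟨mt ζ (Function.Embedding.refl (Fin n)) g, h1⟩, ?_⟩, h3⟩
  show Matrix.SpecialLinearGroup.toGL _ ∈ UG d
  rw [h3]
  exact monoU_mem_UG d hζ h hg

end unitary

end Pool.Agent.P8H33.ZB
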