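import Pool.Agent.P8H33.ZB.MatA

/-!
# The numbers for all vectors with coordinate sum zero
-/

set_option autoImplicit false

namespace Pool.Agent.P8H33.ZB

open Equiv Module Pool.Agent.H185.ZM Pool.Agent.Helper381 Pool.Agent.P8H83.ZL
open scoped Manifold ContDiff

variable {n p : ℕ} {I : Type}

/-- The sum of the coordinates. -/
def sumL (n p : ℕ) : (Fin n → ZMod p) →ₗ[ZMod p] ZMod p where
  toFun v := ∑ i, v i
  map_add' v w := Finset.sum_add_distrib
  map_smul' c v := by
    show ∑ i, c * v i = c * ∑ i, v i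
    rw [Finset.mul_sum]

theorem ker_sumL : LinearMap.ker (sumL n p) = Z0 n p := rfl

theorem finrank_S0 [Fact p.Prime] (hn : 0 < n) : finrank (ZMod p) (Z0 n p) = n - 1 := by
  have h1 := LinearMap.finrank_range_add_finrank_ker (sumL n p)
  have h2 : LinearMap.range (sumL n p) = ⊤ := by
    rw [LinearMap.range_eq_top]
    intro c
    refine ⟨Pi.single ⟨0, hn⟩ c, ?_⟩
    show ∑ i, (Pi.single ⟨0, hn⟩ c : Fin n → ZMod p) i = c
    rw [Finset.sum_pi_single']
    simp
  rw [h2, finrank_top, finrank_self, ker_sumL, Module.finrank_fin_fun] at h1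
  omega

theorem finrank_cst_le [Fact p.Prime] :
    finrank (ZMod p) (Z0 n p ⊓ Submodule.span (ZMod p) {(1 : Fin n → ZMod p)} :
      Submodule (ZMod p) (Fin n → ZMod p)) ≤ dl n p := by
  unfold dl
  have h2 := finrank_span_finset_le_card (R := ZMod p) ({(1 : Fin n → ZMod p)} : Finset _)
  rw [Finset.coe_singleton, Finset.card_singleton] at h2
  split_ifs with h
  · exact (Submodule.finrank_mono inf_le_right).trans h2
  · have h1 : (Z0 n p ⊓ Submodule.span (ZMod p) {(1 : Fin n → ZMod p)} :
        Submodule (ZMod p) (Fin n → ZMod p)) = ⊥ := by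
      rw [eq_bot_iff]
      rintro v ⟨hv, hv'⟩
      obtain ⟨c, rfl⟩ := Submodule.mem_span_singleton.1 hv'
      have h3 : ∑ i : Fin n, (c • (1 : Fin n → ZMod p)) i = 0 := hv
      simp only [Pi.smul_apply, Pi.one_apply, smul_eq_mul, mul_one, Finset.sum_const,
        Finset.card_univ, Fintype.card_fin, nsmul_eq_mul] at h3
      have h4 : (n : ZMod p) ≠ 0 := by
        rw [Ne, ZMod.natCast_eq_zero_iff]
        exact h
      have h5 : c = 0 := (mul_eq_zero.1 h3).resolve_left h4
      rw [h5, zero_smul]
      exact Submodule.zero_mem _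
    rw [h1, finrank_bot]

theorem const_mem (v : Fin n → ZMod p) (hv : v ∈ Z0 n p) (hc : ∀ i j, v i = v j) :
    v ∈ (Z0 n p ⊓ Submodule.span (ZMod p) {(1 : Fin n → ZMod p)} :
      Submodule (ZMod p) (Fin n → ZMod p)) := by
  refine ⟨hv, ?_⟩
  rcases Nat.eq_zero_or_pos n with h | h
  · subst h
    have h1 : v = 0 := funext fun i => i.elim0
    rw [h1]
    exact Submodule.zero_mem _
  · refine Submodule.mem_span_singleton.2 ⟨v ⟨0, h⟩, ?_⟩
    funext i
    rw [Pi.smul_apply, Pi.one_apply, smul_eq_mul, mul_one]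
    exact hc _ _

theorem inRangeA_S0 [Fact p.Prime] (K : Type) [Field K] (M : Type) [TopologicalSpace M]
    (β : Fin n → I) (m : ℕ)
    (h : rk p m + layerSumL K M (layB β (Z0 n p)) + dl n p < n) :
    InRangeA K M β (Z0 n p)
      (Z0 n p ⊓ Submodule.span (ZMod p) {(1 : Fin n → ZMod p)}) m := by
  unfold InRangeA
  have h1 := finrank_cst_le (n := n) (p := p)
  rw [finrank_S0 (by omega)]
  omega

theorem inRangeA_top [Fact p.Prime] (K : Type) [Field K] (M : Type) [TopologicalSpace M]
    (β : Fin n → I) (m : ℕ)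
    (h : rk p m + layerSumL K M (layB β (⊤ : Submodule (ZMod p) (Fin n → ZMod p))) ≤ n) :
    InRangeA K M β (⊤ : Submodule (ZMod p) (Fin n → ZMod p)) ⊥ m := by
  unfold InRangeA
  rw [finrank_bot, finrank_top, Module.finrank_fin_fun]
  omega

/-- The sums of the coordinates in the blocks. -/
noncomputable def bsum (β : Fin n → I) (p : ℕ) :
    (Fin n → ZMod p) →ₗ[ZMod p] (Set.range β → ZMod p) := by
  classical
  exact
  { toFun := fun v c => ∑ i, if β i = c then v i else 0
    map_add' := fun v w => by
      funext c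
      show ∑ i, (if β i = c then v i + w i else 0) = (∑ i, if β i = c then v i else 0) +
        ∑ i, if β i = c then w i else 0
      rw [← Finset.sum_add_distrib]
      refine Finset.sum_congr rfl fun i _ => ?_
      split_ifs <;> simp
    map_smul' := fun a v => by
      funext c
      show ∑ i, (if β i = c then a * v i else 0) = a * ∑ i, if β i = c then v i else 0
      rw [Finset.mul_sum]
      refine Finset.sum_congr rfl fun i _ => ?_
      split_ifs <;> simp }

theorem ker_bsum_le (β : Fin n → I) (k : ℕ)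
    (hk : ∀ i, 2 * k + 2 ≤ Nat.card {l // β l = β i}) :
    LinearMap.ker (bsum β p) ≤ dsp β p k := by
  classical
  intro v hv
  rw [LinearMap.mem_ker] at hv
  -- representatives
  let rep : Fin n → Fin n := fun i => Classical.choose (⟨i, rfl⟩ : ∃ j, β j = β i)
  have hrep : ∀ i, β (rep i) = β i := fun i => Classical.choose_spec (⟨i, rfl⟩ : ∃ j, β j = β i)
  have hrep' : ∀ i j, β i = β j → rep i = rep j := by
    intro i j h
    show Classical.choose (⟨i, rfl⟩ : ∃ l, β l = β i) = Classical.choose (⟨j, rfl⟩ : ∃ l, β l = β j)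
    congr 1
    funext l
    rw [h]
  have h1 : v = ∑ i, v i • (Pi.single i 1 - Pi.single (rep i) 1 : Fin n → ZMod p) := by
    funext l
    rw [Finset.sum_apply]
    show v l = ∑ i, v i * ((Pi.single i 1 : Fin n → ZMod p) l -
      (Pi.single (rep i) 1 : Fin n → ZMod p) l)
    simp only [mul_sub, Finset.sum_sub_distrib]
    have h2 : ∑ i, v i * (Pi.single i 1 : Fin n → ZMod p) l = v l := by
      simp [Pi.single_apply]
    have h3 : ∑ i, v i * (Pi.single (rep i) 1 : Fin n → ZMod p) l = 0 := by
      by_cases hl : rep l = l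
      · have h4 : ∀ i, v i * (Pi.single (rep i) 1 : Fin n → ZMod p) l =
            if β i = β l then v i else 0 := by
          intro i
          by_cases h5 : β i = β l
          · rw [if_pos h5, hrep' i l h5, hl, Pi.single_eq_same, mul_one]
          · rw [if_neg h5, Pi.single_eq_of_ne, mul_zero]
            intro h6
            apply h5
            rw [h6, hrep]
        rw [Finset.sum_congr rfl fun i _ => h4 i]
        exact congrFun hv ⟨β l, l, rfl⟩
      · apply Finset.sum_eq_zero
        intro i _
        rw [Pi.single_eq_of_ne, mul_zero]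
        intro h6
        apply hl
        have h7 : β l = β i := by rw [h6, hrep]
        rw [hrep' l i h7, ← h6]
    rw [h2, h3, sub_zero]
  rw [h1]
  refine Submodule.sum_mem _ fun i _ => Submodule.smul_mem _ _ ?_
  exact Submodule.subset_span ⟨i, rep i, (hrep i).symm, hk i, rfl⟩

theorem finrank_dsp_ge [Fact p.Prime] (β : Fin n → I) (k : ℕ)
    (hk : ∀ i, 2 * k + 2 ≤ Nat.card {l // β l = β i}) :
    n ≤ Nat.card (Set.range β) + finrank (ZMod p) (dsp β p k) := by
  classical
  have : Fintype (Set.range β) := Fintype.ofFinite _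
  have h1 := LinearMap.finrank_range_add_finrank_ker (bsum β p)
  have h2 := Submodule.finrank_mono (ker_bsum_le (p := p) β k hk)
  have h3 := Submodule.finrank_le (LinearMap.range (bsum β p))
  rw [Module.finrank_fintype_fun_eq_card] at h3
  rw [Module.finrank_fin_fun] at h1
  rw [Nat.card_eq_fintype_card]
  omega

/-- The bound for `s` large blocks. -/
theorem layB_le_min [Fact p.Prime] (β : Fin n → I) (A : Submodule (ZMod p) (Fin n → ZMod p))
    {k b t : ℕ} (hb : b < k) (hk : ∀ i, 2 * k + 2 ≤ Nat.card {l // β l = β i})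
    (ht : finrank (ZMod p) A + Nat.card (Set.range β) ≤ n + t) :
    layB β A b ≤ min b (t * (p - 1) + 1) := by
  refine le_min (layB_le b) ?_
  have h1 := layB_le' (β := β) (A := A) b k (by omega)
  rw [Nat.div_eq_of_lt hb, mul_zero, add_zero] at h1
  refine h1.trans ?_
  unfold lam
  have h2 := finrank_dsp_ge (p := p) β k hk
  have h3 : finrank (ZMod p) A - finrank (ZMod p) (dsp β p k) ≤ t := by omega
  have h4 := Nat.mul_le_mul_right (p - 1) h3
  omega

/-- The Betti numbers of a closed manifold vanish in large degrees. -/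
theorem betti_zero (K : Type) [Field K] (E : Type) [NormedAddCommGroup E] [NormedSpace ℝ E]
    [FiniteDimensional ℝ E] (M : Type) [TopologicalSpace M] [ChartedSpace E M]
    [IsManifold 𝓘(ℝ, E) ∞ M] [CompactSpace M] [T2Space M] [ConnectedSpace M] :
    ∃ N : ℕ, ∀ i, N ≤ i → finrank K (SingularCohomology K M i) = 0 := by
  obtain ⟨X, φ, d, N, hXf, hXe, -, -, -, -, -, hfr⟩ :=
    top_proof E M (Multiplicative (ZMod 1)) (fun _ x => x)
      { one := fun _ => rfl
        mul := fun _ _ _ => rfl
        smooth := fun _ => contMDiff_id } K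
  refine ⟨N, fun n hn => ?_⟩
  have h1 := hfr n
  have h2 := hXe n hn
  have h3 : finrank K (LinearMap.ker (d n)) = 0 := by
    have h4 : finrank K (X n → K) = 0 := by
      have := Fintype.ofFinite (X n)
      rw [Module.finrank_fintype_fun_eq_card, Fintype.card_eq_zero_iff]
      exact h2
    have h5 := Submodule.finrank_le (LinearMap.ker (d n))
    omega
  omega

theorem layerSumL_mono (K : Type) [Field K] (E : Type) [NormedAddCommGroup E] [NormedSpace ℝ E]
    [FiniteDimensional ℝ E] (M : Type) [TopologicalSpace M] [ChartedSpace E M]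
    [IsManifold 𝓘(ℝ, E) ∞ M] [CompactSpace M] [T2Space M] [ConnectedSpace M] (L L' : ℕ → ℕ)
    (h0 : L 0 = 0) (h0' : L' 0 = 0)
    (h : ∀ i, L (finrank K (SingularCohomology K M i)) ≤ L' (finrank K (SingularCohomology K M i))) :
    layerSumL K M L ≤ layerSumL K M L' := by
  obtain ⟨N, hN⟩ := betti_zero K E M
  have key : ∀ L : ℕ → ℕ, L 0 = 0 → layerSumL K M L =
      ∑ i ∈ Finset.range N, L (finrank K (SingularCohomology K M i)) := by
    intro L h0
    unfold layerSumL
    rw [finsum_eq_sum_of_support_subset]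
    intro i hi
    rw [Function.mem_support] at hi
    rw [Finset.coe_range, Set.mem_Iio]
    by_contra hlt
    exact hi (by rw [hN i (not_lt.1 hlt), h0])
  rw [key L h0, key L' h0']
  exact Finset.sum_le_sum fun i _ => h i

end Pool.Agent.P8H33.ZB
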