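import Pool.Agent.P8H83.ZL.REP
import Pool.Agent.W254.PA.LeoG

/-!
# Small representations in characteristic 2
-/

set_option autoImplicit false

namespace Pool.Agent.P8H33.ZB

open Equiv Module Pool.Agent.P8H83.ZL

/-- an operator of prime order `q` (not the characteristic) has an eigenvalue different from one -/
theorem exists_eigen {K : Type} [Field K] [IsAlgClosed K] {W : Type} [AddCommGroup W] [Module K W]
    [FiniteDimensional K W] (T : Module.End K W) {q : ℕ} (hq : q.Prime) (hqK : (q : K) ≠ 0)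
    (hT : T ^ q = 1) (h1 : T ≠ 1) :
    ∃ (z : K) (v : W), IsPrimitiveRoot z q ∧ v ≠ 0 ∧ T v = z • v := by
  classical
  -- the range of T - 1
  let R : Submodule K W := LinearMap.range (T - 1)
  have hR : ∀ x ∈ R, T x ∈ R := by
    rintro x ⟨y, rfl⟩
    refine ⟨T y, ?_⟩
    simp [map_sub]
  have hne : Nontrivial R := by
    rw [Submodule.nontrivial_iff_ne_bot]
    intro h
    apply h1
    have h2 : T - 1 = 0 := LinearMap.range_eq_bot.mp h
    exact sub_eq_zero.mp h2
  obtain ⟨z, hz⟩ := Module.End.exists_eigenvalue (T.restrict hR)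
  obtain ⟨v, hv⟩ := hz.exists_hasEigenvector
  have hv1 : T (v : W) = z • (v : W) := by
    have := hv.apply_eq_smul
    have h3 := congrArg Subtype.val this
    simpa using h3
  have hv0 : (v : W) ≠ 0 := fun h => hv.2 (Subtype.ext h)
  have hpow : ∀ k : ℕ, (T ^ k) (v : W) = z ^ k • (v : W) := by
    intro k
    induction k with
    | zero => simp
    | succ k ih => rw [pow_succ', Module.End.mul_apply, ih, map_smul, hv1, smul_smul, pow_succ]
  have hzq : z ^ q = 1 := by
    have h2 := hpow q
    rw [hT, Module.End.one_apply] at h2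
    have h3 : (z ^ q - 1) • (v : W) = 0 := by rw [sub_smul, one_smul, ← h2, sub_self]
    exact sub_eq_zero.mp ((smul_eq_zero.mp h3).resolve_right hv0)
  have hz1 : z ≠ 1 := by
    rintro rfl
    -- the sum of the powers kills the range
    have h4 : (∑ i ∈ Finset.range q, T ^ i) * (T - 1) = 0 := by
      rw [geom_sum_mul, hT, sub_self]
    obtain ⟨y, hy⟩ : (v : W) ∈ LinearMap.range (T - 1) := v.2
    have h5 : (∑ i ∈ Finset.range q, T ^ i) (v : W) = 0 := by
      rw [← hy, ← Module.End.mul_apply, h4, LinearMap.zero_apply]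
    rw [LinearMap.sum_apply] at h5
    simp only [hpow, one_pow, one_smul, Finset.sum_const, Finset.card_range] at h5
    have h6 : (q : K) • (v : W) = 0 := by
      rw [← h5, Nat.cast_smul_eq_nsmul]
    rcases smul_eq_zero.mp h6 with h | h
    · exact hqK h
    · exact hv0 h
  haveI : Fact q.Prime := ⟨hq⟩
  have hord : orderOf z = q := orderOf_eq_prime hzq hz1
  exact ⟨z, v, hord ▸ IsPrimitiveRoot.orderOf z, hv0, hv1⟩

/-- an element of prime order which is conjugate to many of its powers acts trivially in small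
representations -/
theorem small_rep {K : Type} [Field K] [IsAlgClosed K] {G : Type} [Group G] {W : Type}
    [AddCommGroup W] [Module K W] [FiniteDimensional K W] (ρ : G →* (W →ₗ[K] W)) {q : ℕ}
    (hq : q.Prime) (hqK : (q : K) ≠ 0) (c : G) (hc : c ^ q = 1) (S : Finset ℕ)
    (hS : ∀ a ∈ S, a < q ∧ IsConj c (c ^ a)) (hW : finrank K W < S.card) : ρ c = 1 := by
  classical
  by_contra h1
  obtain ⟨z, v, hz, hv, hzv⟩ := exists_eigen (ρ c) hq hqK (by rw [← map_pow, hc, map_one]) h1
  have hpow : ∀ k : ℕ, (ρ c ^ k) v = z ^ k • v := by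
    intro k
    induction k with
    | zero => simp
    | succ k ih => rw [pow_succ', Module.End.mul_apply, ih, map_smul, hzv, smul_smul, pow_succ]
  have hch : ∀ a : S, ∃ g : G, g * c * g⁻¹ = c ^ (a : ℕ) := fun a => isConj_iff.mp (hS a a.2).2
  choose g hg using hch
  have hinv : ∀ (x : G) (w : W), ρ x (ρ x⁻¹ w) = w := by
    intro x w
    rw [← Module.End.mul_apply, ← map_mul, mul_inv_cancel, map_one, Module.End.one_apply]
  have hli : LinearIndependent K (fun a : S => ρ (g a)⁻¹ v) := by
    refine Module.End.eigenvectors_linearIndependent' (ρ c) (fun a : S => z ^ (a : ℕ)) ?_ _ ?_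
    · intro a b hab
      exact Subtype.ext (hz.pow_inj (hS a a.2).1 (hS b b.2).1 hab)
    · intro a
      refine ⟨?_, ?_⟩
      · rw [Module.End.mem_eigenspace_iff]
        have h2 : c * (g a)⁻¹ = (g a)⁻¹ * c ^ (a : ℕ) := by
          rw [← hg a]; group
        rw [← Module.End.mul_apply, ← map_mul, h2, map_mul, Module.End.mul_apply, map_pow, hpow,
          map_smul]
      · intro h0
        apply hv
        rw [← hinv (g a) v, h0, map_zero]
  have := hli.fintype_card_le_finrank
  rw [Fintype.card_coe] at this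
  omega

/-- small representations of the alternating group in characteristic 2 are trivial -/
theorem alt_triv {K : Type} [Field K] [CharP K 2] [IsAlgClosed K] {m k : ℕ} (hk : 2 ≤ k)
    (hm : 2 * k + 2 ≤ m) {W : Type} [AddCommGroup W] [Module K W] [FiniteDimensional K W]
    (ρ : alternatingGroup (Fin m) →* (W →ₗ[K] W)) (hW : finrank K W < k)
    (g : alternatingGroup (Fin m)) : ρ g = 1 := by
  classical
  obtain ⟨q, hq, hq1, hq2⟩ := Nat.exists_prime_lt_and_le_two_mul k (by omega)
  obtain ⟨c, hcyc, hsup, hcq, hc1, hconj⟩ := Pool.Agent.W254.PA.exists_cycle m q hq (by omega)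
  have hodd : Odd q := hq.odd_of_ne_two (by omega)
  have hqK : (q : K) ≠ 0 := by
    intro h
    rw [CharP.cast_eq_zero_iff K 2] at h
    rw [← Nat.not_even_iff_odd] at hodd
    exact hodd (even_iff_two_dvd.2 h)
  have hsign : c ∈ alternatingGroup (Fin m) := by
    rw [Equiv.Perm.mem_alternatingGroup, hcyc.sign, hsup, hodd.neg_one_pow]
    simp
  let c' : alternatingGroup (Fin m) := ⟨c, hsign⟩
  have h1 : ρ c' = 1 := by
    refine small_rep ρ hq hqK c' (Subtype.ext hcq) (Finset.Ioo 0 q) ?_ ?_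
    · intro a ha
      rw [Finset.mem_Ioo] at ha
      refine ⟨ha.2, alternatingGroup.isConj_of (hconj a ha.1 ha.2) ?_⟩
      rw [Fintype.card_fin]
      have : (c' : Equiv.Perm (Fin m)).support.card = q := hsup
      omega
    · rw [Nat.card_Ioo]; omega
  have : IsSimpleGroup (alternatingGroup (Fin m)) :=
    alternatingGroup.isSimpleGroup (by simp; omega)
  have hker : ρ.ker = ⊤ := by
    rcases (inferInstance : ρ.ker.Normal).eq_bot_or_eq_top with h | h
    · exfalso
      have h2 : c' ∈ ρ.ker := MonoidHom.mem_ker.mpr h1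
      rw [h, Subgroup.mem_bot] at h2
      exact hc1 (congrArg Subtype.val h2)
    · exact h
  have h3 : g ∈ ρ.ker := by rw [hker]; exact Subgroup.mem_top g
  exact MonoidHom.mem_ker.mp h3

theorem pe_triv {K : Type} [Field K] [CharP K 2] [IsAlgClosed K] {N k : ℕ} (hk : 2 ≤ k)
    (hN : 2 * k + 2 ≤ N) {V : Type} [AddCommGroup V] [Module K V] [FiniteDimensional K V]
    (ρ : WG N 2 →* (V →ₗ[K] V)) (hV : finrank K V < k) (σ : Perm (Fin N))
    (hσ : Perm.sign σ = 1) : ρ (REP.pe 2 σ hσ) = 1 := by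
  let f : alternatingGroup (Fin N) →* WG N 2 :=
    { toFun := fun τ => REP.pe 2 τ.1 (Perm.mem_alternatingGroup.1 τ.2)
      map_one' := rfl
      map_mul' := fun σ τ => by rw [REP.pe_mul]; rfl }
  exact alt_triv hk hN (ρ.comp f) hV ⟨σ, Perm.mem_alternatingGroup.2 hσ⟩

/-- **Representations of `(ℤ/2)^N_0 ⋊ A_N` of dimension less than `⌊(N - 2) / 2⌋` in
characteristic 2 are trivial on the vectors.** -/
theorem rep2 (N : ℕ) (K : Type) [Field K] [CharP K 2] [IsAlgClosed K] :
    SmallTriv K (WG N 2) (WG.D N 2) ((N - 2) / 2) := by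
  classical
  intro V _ _ _ ρ hV g hg v
  rcases Nat.lt_or_ge ((N - 2) / 2) 2 with h | h
  · have h0 : Module.finrank K V = 0 := by omega
    have := Module.finrank_zero_iff.1 h0
    exact Subsingleton.elim _ _
  · have hN6 : 6 ≤ N := by omega
    let a : Fin N := ⟨0, by omega⟩
    let b : Fin N := ⟨1, by omega⟩
    let c : Fin N := ⟨2, by omega⟩
    let d : Fin N := ⟨3, by omega⟩
    let e : Fin N := ⟨4, by omega⟩
    have hne : ∀ i j : ℕ, ∀ hi : i < N, ∀ hj : j < N, i ≠ j → (⟨i, hi⟩ : Fin N) ≠ ⟨j, hj⟩ :=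
      fun i j hi hj hij h => hij (congrArg Fin.val h)
    have hab : a ≠ b := hne _ _ _ _ (by norm_num)
    have hde : d ≠ e := hne _ _ _ _ (by norm_num)
    have hcd : c ≠ d := hne _ _ _ _ (by norm_num)
    have hce : c ≠ e := hne _ _ _ _ (by norm_num)
    have hca : c ≠ a := hne _ _ _ _ (by norm_num)
    have hcb : c ≠ b := hne _ _ _ _ (by norm_num)
    have hda : d ≠ a := hne _ _ _ _ (by norm_num)
    have hdb : d ≠ b := hne _ _ _ _ (by norm_num)
    have hae : a ≠ e := hne _ _ _ _ (by norm_num)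
    let τ : Perm (Fin N) := swap a b * swap d e
    have hτ : Perm.sign τ = 1 := by
      rw [Perm.sign_mul, Perm.sign_swap hab, Perm.sign_swap hde]
      decide
    have hτa : τ a = b := by
      show swap a b (swap d e a) = b
      rw [swap_apply_of_ne_of_ne hda.symm hae, swap_apply_left]
    have hτc : τ c = c := by
      show swap a b (swap d e c) = c
      rw [swap_apply_of_ne_of_ne hcd hce, swap_apply_of_ne_of_ne hca hcb]
    have h1 : ρ (REP.pe 2 τ hτ) = 1 := pe_triv h (by omega) ρ hV τ hτ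
    have h2 := REP.pe_dv τ hτ (REP.df (p := 2) a c).1 (REP.s0 _)
    have h3 : (fun i => (REP.df (p := 2) a c).1 (τ⁻¹ i)) = (REP.df (p := 2) b c).1 := by
      rw [REP.df_perm, hτa, hτc]
    rw [REP.dv_congr _ (REP.s0 (REP.df b c)) h3] at h2
    have h4 : ρ (REP.dv (REP.df (p := 2) b c).1 (REP.s0 _)) =
        ρ (REP.dv (REP.df (p := 2) a c).1 (REP.s0 _)) := by
      rw [← h2, map_mul, map_mul, h1, one_mul]
      have h5 : ρ (REP.pe 2 τ hτ)⁻¹ = 1 := by
        have h6 : ρ (REP.pe 2 τ hτ) * ρ (REP.pe 2 τ hτ)⁻¹ = 1 := by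
          rw [← map_mul, mul_inv_cancel, map_one]
        rwa [h1, one_mul] at h6
      rw [h5, mul_one]
    have h7 : REP.df (p := 2) a b ∈ REP.sub ρ.ker := by
      have h8 : REP.dv (REP.df (p := 2) a b).1 (REP.s0 _) =
          REP.dv (REP.df (p := 2) a c).1 (REP.s0 _) *
            (REP.dv (REP.df (p := 2) b c).1 (REP.s0 _))⁻¹ := by
        rw [REP.dv_inv, REP.dv_mul]
        apply REP.dv_congr
        funext x
        show (Pi.single a 1 : Fin N → ZMod 2) x - (Pi.single b 1 : Fin N → ZMod 2) x =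
          ((Pi.single a 1 : Fin N → ZMod 2) x - (Pi.single c 1 : Fin N → ZMod 2) x) +
          - ((Pi.single b 1 : Fin N → ZMod 2) x - (Pi.single c 1 : Fin N → ZMod 2) x)
        ring
      show REP.dv (REP.df (p := 2) a b).1 (REP.s0 _) ∈ ρ.ker
      rw [h8]
      have h9 : ρ (REP.dv (REP.df (p := 2) b c).1 (REP.s0 _)) *
          ρ (REP.dv (REP.df (p := 2) b c).1 (REP.s0 _))⁻¹ = 1 := by
        rw [← map_mul, mul_inv_cancel, map_one]
      rw [MonoidHom.mem_ker, map_mul, ← h4]
      exact h9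
    have h8 := REP.all_mem ρ.ker a b c d hab hcd hca hcb hda hdb h7 g hg
    rw [MonoidHom.mem_ker.1 h8]
    rfl

end Pool.Agent.P8H33.ZB
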