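import Pool.Agent.P8H33.ZB.LayB
import Pool.Agent.P8H33.ZB.Rep2
import Pool.Agent.P8H83.ZL.Mat

/-!
# Smooth actions of the block groups
-/

set_option autoImplicit false

namespace Pool.Agent.P8H33.ZB

open Equiv Module Pool.Agent.H185.ZM Pool.Agent.Helper381 Pool.Agent.P8H83.ZL
open scoped Manifold ContDiff

variable {n p : ℕ} {I : Type}

variable {β : Fin n → I} {A F : Submodule (ZMod p) (Fin n → ZMod p)}

theorem rep_all {p : ℕ} (hp : p.Prime) (K : Type) [Field K] [CharP K p] [IsAlgClosed K] (N : ℕ) :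
    SmallTriv K (WG N p) (WG.D N p) ((N - 2) / 2) := by
  by_cases h : p = 2
  · subst h
    exact rep2 N K
  · exact rep_proof p hp h N K

theorem finrank_submoduleOf_le [Fact p.Prime] (A F : Submodule (ZMod p) (Fin n → ZMod p)) :
    finrank (ZMod p) (F.submoduleOf A) ≤ finrank (ZMod p) F := by
  have h1 : F.submoduleOf A = (A ⊓ F).submoduleOf A := by
    unfold Submodule.submoduleOf
    rw [Submodule.comap_inf, Submodule.comap_subtype_self, top_inf_eq]
  rw [h1, LinearEquiv.finrank_eq (Submodule.submoduleOfEquivOfLe (inf_le_left : A ⊓ F ≤ A))]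
  exact Submodule.finrank_mono inf_le_right

theorem wgA (hM : S_MAIN2) (hp : p.Prime) (K : Type) [Field K] [CharP K p] [IsAlgClosed K]
    (E : Type) [NormedAddCommGroup E] [NormedSpace ℝ E] [FiniteDimensional ℝ E]
    (M : Type) [TopologicalSpace M] [ChartedSpace E M] [IsManifold 𝓘(ℝ, E) ∞ M]
    [CompactSpace M] [T2Space M] [ConnectedSpace M] (hA : Adm β A)
    (hr : InRangeA K M β A F (finrank ℝ E)) (a : BG β A → M → M) (ha : SmoothAction E a) :
    ∃ (v : Fin n → ZMod p) (hv : v ∈ A), v ∉ F ∧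
      ∀ x, a (cB β A (Multiplicative.ofAdd ⟨v, hv⟩)) x = x := by
  have : Fact p.Prime := ⟨hp⟩
  have := finite_BG (β := β) (A := A) hp
  obtain ⟨W, hW⟩ := Submodule.exists_isCompl (F.submoduleOf A)
  have hf := Submodule.finrank_add_eq_of_isCompl hW
  have hle := finrank_submoduleOf_le A F
  let bs := finBasis (ZMod p) W
  let f : (Fin (finrank (ZMod p) W) → ZMod p) →+ A :=
    (W.subtype.comp bs.equivFun.symm.toLinearMap).toAddMonoidHom
  let e : EA p (finrank (ZMod p) W) →* BG β A := (cB β A).comp (AddMonoidHom.toMultiplicative f)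
  unfold InRangeA at hr
  have hinf : Infinite K := IsAlgClosed.instInfinite
  obtain ⟨g, hg, hx⟩ := hM p hp K E M (BG β A) (DB β A) (layB β A) layB_zero
    (layerBound hp (rep_all hp K) hA) (finrank (ZMod p) W) e (fun g => ⟨_, rfl⟩) a ha (by omega)
  refine ⟨(f (Multiplicative.toAdd g)).1, (f (Multiplicative.toAdd g)).2, ?_, hx⟩
  intro hcon
  apply hg
  have h2 : f (Multiplicative.toAdd g) ∈ W := (bs.equivFun.symm (Multiplicative.toAdd g)).2
  have h3 : f (Multiplicative.toAdd g) = 0 :=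
    Submodule.disjoint_def.1 hW.disjoint _ hcon h2
  have h4 : bs.equivFun.symm (Multiplicative.toAdd g) = 0 := Subtype.ext h3
  rw [LinearEquiv.map_eq_zero_iff] at h4
  exact toAdd_eq_zero.1 h4

section

variable {E : Type} [NormedAddCommGroup E] [NormedSpace ℝ E] [FiniteDimensional ℝ E]
  {M : Type} [TopologicalSpace M] [ChartedSpace E M] [IsManifold 𝓘(ℝ, E) ∞ M]

/-- groups with a homomorphism from the block group -/
theorem groupA (hM : S_MAIN2) (hp : p.Prime) (K : Type) [Field K] [CharP K p] [IsAlgClosed K]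
    [CompactSpace M] [T2Space M] [ConnectedSpace M] (hA : Adm β A)
    (hr : InRangeA K M β A F (finrank ℝ E)) {Γ : Type} [Group Γ] (φ : BG β A →* Γ)
    {α : Γ → (M ≃ₘ^∞⟮𝓘(ℝ, E), 𝓘(ℝ, E)⟯ M)} (hα : IsHom α) :
    ∃ g : BG β A, g.1.σ = 1 ∧ g.1.v ∈ A ∧ g.1.v ∉ F ∧ ∀ x, α (φ g) x = x := by
  obtain ⟨v, hv, hF, hx⟩ := wgA hM hp K E M hA hr (fun g x => α (φ g) x)
    { one := fun x => by
        show α (φ 1) x = x
        rw [map_one]; exact hα.action.one x
      mul := fun g h x => by
        show α (φ (g * h)) x = _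
        rw [map_mul]; exact hα _ _ _
      smooth := fun g => hα.action.smooth _ }
  exact ⟨cB β A (Multiplicative.ofAdd ⟨v, hv⟩), rfl, hv, hF, hx⟩

end

end Pool.Agent.P8H33.ZB
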